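import Pool.Agent.MP_08f2bd_gt.Mg.OwnSmooth
import Pool.Agent.MP_08f2bd_gt.OwnDefs

/-!
Transfer between `EuclideanSpace ℝ (Fin d)` and `Fin d → ℝ`.
-/

set_option autoImplicit false
open MeasureTheory Set Filter Topology
open scoped ContDiff ENNReal

namespace Pool.Agent.MP_08f2bd_gt.Own

theorem divergence_eq {d : ℕ} (φ : EuclideanSpace ℝ (Fin d) → EuclideanSpace ℝ (Fin d))
    (hφ : Differentiable ℝ φ) (y : Fin d → ℝ) :
    divergence φ (WithLp.toLp 2 y) = ∑ i, fderiv ℝ (fun z : Fin d → ℝ => φ (WithLp.toLp 2 z) i) y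
      (Pi.single i (1 : ℝ) : Fin d → ℝ) := by
  unfold divergence
  rw [LinearMap.trace_eq_sum_inner _ (EuclideanSpace.basisFun (Fin d) ℝ)]
  refine Finset.sum_congr rfl fun i _ => ?_
  have h1 : HasFDerivAt (fun z : Fin d → ℝ => (WithLp.toLp 2 z : EuclideanSpace ℝ (Fin d)))
      ((EuclideanSpace.equiv (Fin d) ℝ).symm : (Fin d → ℝ) →L[ℝ] EuclideanSpace ℝ (Fin d)) y :=
    (EuclideanSpace.equiv (Fin d) ℝ).symm.hasFDerivAt
  have h2 := (hφ (WithLp.toLp 2 y)).hasFDerivAt.comp y h1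
  have h3 := (EuclideanSpace.proj (𝕜 := ℝ) i).hasFDerivAt.comp y h2
  have e : fderiv ℝ (fun z : Fin d → ℝ => φ (WithLp.toLp 2 z) i) y = _ := h3.fderiv
  rw [e, EuclideanSpace.basisFun_inner]
  simp [EuclideanSpace.basisFun_apply, EuclideanSpace.single]

theorem setIntegral_eq {d : ℕ} (A : Set (EuclideanSpace ℝ (Fin d)))
    (f : EuclideanSpace ℝ (Fin d) → ℝ) :
    ∫ x in A, f x = ∫ y in (WithLp.toLp 2 : (Fin d → ℝ) → EuclideanSpace ℝ (Fin d)) ⁻¹' A,
      f (WithLp.toLp 2 y) :=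
  ((PiLp.volume_preserving_toLp (Fin d)).setIntegral_preimage_emb
    (MeasurableEquiv.toLp 2 (Fin d → ℝ)).measurableEmbedding f A).symm

theorem norm_le_one_iff {d : ℕ} (v : EuclideanSpace ℝ (Fin d)) :
    ‖v‖ ≤ 1 ↔ ∑ i, v i ^ 2 ≤ 1 := by
  rw [← EuclideanSpace.real_norm_sq_eq]
  exact (sq_le_one_iff₀ (norm_nonneg v)).symm

/-- An upper bound on the `C^1` divergence integrals bounds the perimeter. -/
theorem perimeter_le {d : ℕ} (n : ℕ∞) (hn : 1 ≤ n) (A : Set (EuclideanSpace ℝ (Fin d))) (r : ℝ)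
    (H : PerLe ((WithLp.toLp 2 : (Fin d → ℝ) → EuclideanSpace ℝ (Fin d)) ⁻¹' A) r) :
    perimeter n (unitCube d) A ≤ ENNReal.ofReal r := by
  refine iSup₂_le fun φ hφ => ENNReal.ofReal_le_ofReal ?_
  obtain ⟨h1, h2, h3, h4⟩ := hφ
  have h1' : ContDiff ℝ 1 φ := h1.of_le (by exact_mod_cast hn)
  set T := (EuclideanSpace.equiv (Fin d) ℝ).symm with hT
  have hz : ∀ y, y ∉ T ⁻¹' tsupport φ → (fun z : Fin d → ℝ => fun i => φ (T z) i) y = 0 := by
    intro y hy
    funext i
    simp [image_eq_zero_of_notMem_tsupport hy]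
  have hK : IsCompact (T ⁻¹' tsupport φ) := T.toHomeomorph.isCompact_preimage.mpr h2.isCompact
  have := H (fun z i => φ (T z) i)
    (contDiff_pi.mpr fun i =>
      (EuclideanSpace.proj (𝕜 := ℝ) i).contDiff.comp (h1'.comp T.contDiff))
    (HasCompactSupport.intro hK hz)
    ((closure_minimal (fun y hy => by by_contra h; exact hy (hz y h)) hK.isClosed).trans
      fun y hy => h3 hy)
    (fun x => (norm_le_one_iff _).mp (h4 _))
  rw [setIntegral_eq]
  simp only [divergence_eq φ (h1'.differentiable one_ne_zero)]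
  exact this

/-- A bound on the perimeter bounds the divergence integrals of smooth test fields. -/
theorem perLeS_of_perimeter {d : ℕ} (n : ℕ∞) (A : Set (EuclideanSpace ℝ (Fin d))) (r : ℝ)
    (hr : 0 ≤ r) (H : perimeter n (unitCube d) A ≤ ENNReal.ofReal r) :
    PerLeS ((WithLp.toLp 2 : (Fin d → ℝ) → EuclideanSpace ℝ (Fin d)) ⁻¹' A) r := by
  intro ψ h1 h2 h3 h4
  set T := EuclideanSpace.equiv (Fin d) ℝ with hT
  set φ : EuclideanSpace ℝ (Fin d) → EuclideanSpace ℝ (Fin d) := fun x => T.symm (ψ (T x))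
    with hφ
  have hs : ContDiff ℝ ∞ φ := T.symm.contDiff.comp (h1.comp T.contDiff)
  have hz : ∀ y, y ∉ T ⁻¹' tsupport ψ → φ y = 0 := by
    intro y hy
    simp [hφ, image_eq_zero_of_notMem_tsupport hy]
  have hK : IsCompact (T ⁻¹' tsupport ψ) := T.toHomeomorph.isCompact_preimage.mpr h2.isCompact
  have hle : ENNReal.ofReal (∫ x in A, divergence φ x) ≤ perimeter n (unitCube d) A := by
    unfold perimeter
    refine le_iSup₂_of_le φ ⟨hs.of_le (by exact_mod_cast le_top), HasCompactSupport.intro hK hz,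
      (closure_minimal (fun y hy => by by_contra h; exact hy (hz y h)) hK.isClosed).trans
        fun y hy => h3 hy, fun x => (norm_le_one_iff _).mpr (h4 _)⟩ le_rfl
  have h5 := (ENNReal.ofReal_le_ofReal_iff hr).mp (hle.trans H)
  rw [setIntegral_eq] at h5
  simp only [divergence_eq φ (hs.differentiable (by simp))] at h5
  exact h5

theorem perimeter_congr {d : ℕ} (n : ℕ∞) (Ω A B : Set (EuclideanSpace ℝ (Fin d)))
    (h : A =ᵐ[volume] B) : perimeter n Ω A = perimeter n Ω B := by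
  unfold perimeter
  simp only [setIntegral_congr_set h]

/-- The isoperimetric inequality in the cube. -/
theorem prof_le_perimeter {d : ℕ} (n : ℕ∞) (A : Set (EuclideanSpace ℝ (Fin d)))
    (hA : NullMeasurableSet A volume) (hAc : A ⊆ unitCube d) :
    ENNReal.ofReal (prof (volume.real A)) ≤ perimeter n (unitCube d) A := by
  obtain ⟨B, hBA, hB, hae⟩ := hA.exists_measurable_subset_ae_eq
  rw [← perimeter_congr n _ B A hae, ← measureReal_congr hae]
  rcases eq_or_ne (perimeter n (unitCube d) B) ⊤ with h | h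
  · rw [h]; exact le_top
  have hm := PiLp.volume_preserving_toLp (Fin d)
  have hc : (WithLp.toLp 2 : (Fin d → ℝ) → EuclideanSpace ℝ (Fin d)) ⁻¹' B ⊆ cube d :=
    fun y hy => hAc (hBA hy)
  have h1 := iso_lower _ (hm.measurable hB) hc _ (perLe_of_smooth _ hc _
    (perLeS_of_perimeter n B _ ENNReal.toReal_nonneg (ENNReal.ofReal_toReal h).ge))
  rw [hm.measureReal_preimage hB.nullMeasurableSet] at h1
  rw [← ENNReal.ofReal_toReal h]
  exact ENNReal.ofReal_le_ofReal h1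

theorem profile_le_one (n : ℕ∞) (hn : 1 ≤ n) (d : ℕ) (t : ℝ) (h0 : 0 ≤ t) (h1 : t ≤ 1) :
    profile n (d + 1) t ≤ 1 := by
  obtain ⟨E, hE, hEc, hv, hP⟩ := slab d t h0 h1
  have hm := PiLp.volume_preserving_ofLp (Fin (d + 1))
  unfold profile
  refine iInf₂_le_of_le (WithLp.ofLp ⁻¹' E) ⟨(hm.measurable hE).nullMeasurableSet,
    fun y hy => hEc hy, by rw [hm.measure_preimage hE.nullMeasurableSet, hv]⟩ ?_
  rw [← ENNReal.ofReal_one]
  exact perimeter_le n hn _ 1 hP

end Pool.Agent.MP_08f2bd_gt.Own
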