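import Pool.Agent.MP_08f2bd_gt.Mg.Slab

/-!
Smooth test fields suffice to bound the divergence integrals of `C^1` test fields.
-/

set_option autoImplicit false
open MeasureTheory Set Filter Topology
open scoped Convolution ContDiff

namespace Pool.Agent.MP_08f2bd_gt

/-- As `PerLe`, with smooth test fields only. -/
def PerLeS {d : ℕ} (E : Set (Fin d → ℝ)) (r : ℝ) : Prop :=
  ∀ φ : (Fin d → ℝ) → (Fin d → ℝ), ContDiff ℝ ∞ φ → HasCompactSupport φ →
    tsupport φ ⊆ cube d → (∀ x, ∑ i, (φ x i) ^ 2 ≤ 1) →
    ∫ x in E, (∑ i, fderiv ℝ (fun y => φ y i) x (Pi.single i (1 : ℝ) : Fin d → ℝ)) ≤ r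

theorem cube_open (d : ℕ) : IsOpen (cube d) := by
  rw [cube_eq]
  exact isOpen_set_pi finite_univ fun _ _ => isOpen_Ioo

theorem sm_comm {d : ℕ} (ρ g : (Fin d → ℝ) → ℝ) : sm ρ g = sm g ρ := by
  funext x
  unfold sm
  rw [← integral_sub_left_eq_self _ volume x]
  simp [mul_comm]

theorem perLe_of_smooth {d : ℕ} (E : Set (Fin d → ℝ)) (hEc : E ⊆ cube d) (r : ℝ)
    (H : PerLeS E r) : PerLe E r := by
  intro φ hφ hc hs hle
  have hEfin : volume E ≠ ⊤ :=
    ne_top_of_le_ne_top (by rw [cube_vol]; simp) (measure_mono hEc)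
  obtain ⟨δ, hδ0, hδ⟩ := hc.isCompact.exists_cthickening_subset_open (cube_open d) hs
  have hφi : ∀ i, ContDiff ℝ 1 fun y => φ y i := contDiff_pi.mp hφ
  have hci : ∀ i, HasCompactSupport fun y => φ y i := fun i =>
    hc.comp_left (g := fun v : Fin d → ℝ => v i) rfl
  let b : ℕ → ContDiffBump (0 : Fin d → ℝ) := fun n =>
    ⟨δ / (2 * ((n : ℝ) + 2)), δ / ((n : ℝ) + 2), by positivity, by
      apply div_lt_div_of_pos_left hδ0 (by positivity)
      have : (0 : ℝ) ≤ n := Nat.cast_nonneg n
      linarith⟩
  have hb : ∀ n, (b n).rOut < δ := by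
    intro n
    change δ / ((n : ℝ) + 2) < δ
    rw [div_lt_iff₀ (by positivity)]
    have : (0 : ℝ) ≤ n := Nat.cast_nonneg n
    nlinarith
  have hb0 : Tendsto (fun n => (b n).rOut) atTop (𝓝 0) := by
    change Tendsto (fun n : ℕ => δ / ((n : ℝ) + 2)) atTop (𝓝 0)
    apply Tendsto.div_atTop tendsto_const_nhds
    exact tendsto_atTop_add_const_right _ _ tendsto_natCast_atTop_atTop
  set D : Fin d → (Fin d → ℝ) → ℝ :=
    fun i x => fderiv ℝ (fun y => φ y i) x (Pi.single i (1 : ℝ)) with hD
  have hDc : ∀ i, Continuous (D i) := fun i =>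
    ((hφi i).continuous_fderiv one_ne_zero).clm_apply continuous_const
  have hDb : ∀ i, ∃ C, ∀ z, ‖D i z‖ ≤ C := fun i =>
    (hDc i).bounded_above_of_compact_support ((hci i).fderiv_apply ℝ _)
  choose C hC using hDb
  set ψ : ℕ → (Fin d → ℝ) → (Fin d → ℝ) :=
    fun n y i => sm (fun y => φ y i) ((b n).normed volume) y with hψ
  have hρi : ∀ n, Integrable ((b n).normed (volume : Measure (Fin d → ℝ))) := fun n =>
    (b n).integrable_normed
  have hψd : ∀ n i x, fderiv ℝ (fun y => ψ n y i) x (Pi.single i (1 : ℝ) : Fin d → ℝ)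
      = ∫ y, (b n).normed volume y * D i (x - y) := fun n i x =>
    sm_fderiv _ _ (hci i) (hφi i) (hρi n) x _
  have hK : IsCompact (Metric.cthickening δ (tsupport φ)) := hc.isCompact.cthickening
  have hψ0 : ∀ n y, y ∉ Metric.cthickening δ (tsupport φ) → ψ n y = 0 := by
    intro n y hy
    funext i
    simp only [hψ, sm, Pi.zero_apply]
    apply integral_eq_zero_of_ae
    refine Eventually.of_forall fun x => ?_
    by_cases hx : (b n).normed volume x = 0
    · simp [hx]
    · have h1 : x ∈ Function.support ((b n).normed volume) := hx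
      rw [(b n).support_normed_eq] at h1
      have h2 : ‖x‖ < δ := by
        have : ‖x‖ < (b n).rOut := by simpa using h1
        linarith [hb n]
      have h3 : φ (y - x) = 0 := by
        by_contra hne
        apply hy
        refine Metric.mem_cthickening_of_dist_le y (y - x) δ _ (subset_tsupport _ hne) ?_
        rw [dist_eq_norm]
        simpa using h2.le
      simp [h3]
  have hψle : ∀ n, ∫ x in E, (∑ i, fderiv ℝ (fun y => ψ n y i) x
      (Pi.single i (1 : ℝ) : Fin d → ℝ)) ≤ r := by
    intro n
    refine H (ψ n) (contDiff_pi.mpr fun i => ?_) (HasCompactSupport.intro hK (hψ0 n))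
      ((closure_minimal (fun y hy => by by_contra h; exact hy (hψ0 n y h))
        hK.isClosed).trans hδ) (fun y => ?_)
    · change ContDiff ℝ ∞ (sm (fun y => φ y i) ((b n).normed volume))
      rw [sm_eq]
      exact (b n).hasCompactSupport_normed.contDiff_convolution_left _ (n := ⊤)
        ((b n).contDiff_normed (n := ⊤)) (hφi i).continuous.locallyIntegrable
    · simp only [hψ]
      simp only [← sm_comm ((b n).normed volume)]
      refine sm_sq_le _ (fun i y => φ y i) (hρi n) (b n).nonneg_normed (b n).integral_normed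
        (fun i y => ?_) hle y
      apply Continuous.integrable_of_hasCompactSupport
      · exact (hφi i).continuous.mul ((b n).continuous_normed.comp (by fun_prop))
      · exact (hci i).mul_right
  have hlim : Tendsto (fun n => ∫ x in E, (∑ i, fderiv ℝ (fun y => ψ n y i) x
      (Pi.single i (1 : ℝ) : Fin d → ℝ))) atTop (𝓝 (∫ x in E, ∑ i, D i x)) := by
    simp only [hψd]
    have : IsFiniteMeasure (volume.restrict E) := isFiniteMeasure_restrict.mpr hEfin
    refine tendsto_integral_of_dominated_convergence (fun _ => ∑ i, C i) (fun n => ?_)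
      (integrable_const _) (fun n => Eventually.of_forall fun x => ?_)
      (Eventually.of_forall fun x => ?_)
    · simp only [← hψd]
      apply Continuous.aestronglyMeasurable
      refine continuous_finsetSum _ fun i _ => ?_
      exact ((sm_contDiff _ _ (hci i) (hφi i) (hρi n)).continuous_fderiv
        one_ne_zero).clm_apply continuous_const
    · refine (norm_sum_le _ _).trans (Finset.sum_le_sum fun i _ => ?_)
      have h1 : ‖∫ y, (b n).normed volume y * D i (x - y)‖
          ≤ ∫ y, (b n).normed volume y * C i := by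
        apply norm_integral_le_of_norm_le ((hρi n).mul_const _)
        refine Eventually.of_forall fun y => ?_
        rw [norm_mul, Real.norm_of_nonneg ((b n).nonneg_normed y)]
        exact mul_le_mul_of_nonneg_left (hC i _) ((b n).nonneg_normed y)
      rwa [integral_mul_const, (b n).integral_normed, one_mul] at h1
    · refine tendsto_finsetSum _ fun i _ => ?_
      have := ContDiffBump.convolution_tendsto_right_of_continuous (μ := volume) hb0 (hDc i) x
      simpa [convolution_def] using this
  exact le_of_tendsto' hlim hψle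

end Pool.Agent.MP_08f2bd_gt
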