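import Mathlib

-- part MP_08f2bd_gt.Sym
section

/-!
Symmetric one-parameter integral estimates used for the one-dimensional functional inequality.
-/

set_option autoImplicit false
open MeasureTheory Set intervalIntegral

namespace Pool.Agent.MP_08f2bd_gt

/-- Area of a half disc. -/
theorem semicircle (d : ℝ) (hd : 0 ≤ d) :
    ∫ x in (-d)..d, √(d ^ 2 - x ^ 2) = Real.pi * d ^ 2 / 2 := by
  have h := intervalIntegral.mul_integral_comp_mul_left (a := -1) (b := 1)
    (f := fun x => √(d ^ 2 - x ^ 2)) d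
  simp only [mul_neg, mul_one] at h
  rw [← h]
  have h2 : ∀ x : ℝ, √(d ^ 2 - (d * x) ^ 2) = d * √(1 - x ^ 2) := by
    intro x
    have : d ^ 2 - (d * x) ^ 2 = d ^ 2 * (1 - x ^ 2) := by ring
    rw [this, Real.sqrt_mul (sq_nonneg d), Real.sqrt_sq hd]
  simp only [h2]
  rw [intervalIntegral.integral_const_mul, integral_sqrt_one_sub_sq]
  ring

/-- Second moment of the half disc. -/
theorem semicircle_two (d : ℝ) (hd : 0 ≤ d) :
    ∫ x in (-d)..d, √(d ^ 2 - x ^ 2) * (d ^ 2 - 4 * x ^ 2) = 0 := by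
  have key : ∫ x in (-d)..d, √(d ^ 2 - x ^ 2) * (d ^ 2 - 4 * x ^ 2)
      = (fun x => x * (d ^ 2 - x ^ 2) * √(d ^ 2 - x ^ 2)) d
        - (fun x => x * (d ^ 2 - x ^ 2) * √(d ^ 2 - x ^ 2)) (-d) := by
    refine intervalIntegral.integral_eq_sub_of_hasDerivAt_of_le
      (f := fun x => x * (d ^ 2 - x ^ 2) * √(d ^ 2 - x ^ 2)) (by linarith) ?_ ?_ ?_
    · fun_prop
    · intro x hx
      have hpos : 0 < d ^ 2 - x ^ 2 := by
        obtain ⟨h1, h2⟩ := hx
        nlinarith
      have h1 : HasDerivAt (fun x : ℝ => d ^ 2 - x ^ 2) (-(2 * x)) x := by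
        simpa using (hasDerivAt_pow 2 x).const_sub (d ^ 2)
      have h2 := h1.sqrt hpos.ne'
      have h3 : HasDerivAt (fun x => x * (d ^ 2 - x ^ 2) * √(d ^ 2 - x ^ 2)) _ x :=
        ((hasDerivAt_id x).mul h1).mul h2
      refine h3.congr_deriv ?_
      have hs : √(d ^ 2 - x ^ 2) ≠ 0 := (Real.sqrt_pos.mpr hpos).ne'
      have hs2 : √(d ^ 2 - x ^ 2) ^ 2 = d ^ 2 - x ^ 2 := Real.sq_sqrt hpos.le
      simp only [id, Pi.mul_apply]
      field_simp
      rw [hs2]
      ring
    · apply Continuous.intervalIntegrable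
      fun_prop
  rw [key]
  simp

/-- The symmetric calibration integrand. -/
noncomputable def kk (η x : ℝ) : ℝ := √(1 - ((1 - η ^ 2) / (1 - x ^ 2)) ^ 2)

theorem kk_nonneg (η x : ℝ) : 0 ≤ kk η x := Real.sqrt_nonneg _

theorem kk_neg (η x : ℝ) : kk η (-x) = kk η x := by simp [kk]

theorem kk_contOn (η : ℝ) (h0 : 0 ≤ η) (h1 : η ≤ 1) : ContinuousOn (kk η) (Icc (-η) η) := by
  rcases h1.eq_or_lt with h | h
  · subst h
    have : kk 1 = fun _ => 1 := by
      funext x; simp [kk]
    rw [this]; exact continuousOn_const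
  · unfold kk
    apply ContinuousOn.sqrt
    apply ContinuousOn.sub continuousOn_const
    apply ContinuousOn.pow
    apply ContinuousOn.div continuousOn_const (by fun_prop)
    intro x hx
    obtain ⟨h1, h2⟩ := hx
    have : x ^ 2 < 1 := by nlinarith
    linarith

theorem kk_sq (η x : ℝ) (h1 : η ≤ 1) (hx : x ∈ Icc (-η) η) :
    kk η x ^ 2 + ((1 - η ^ 2) / (1 - x ^ 2)) ^ 2 ≤ 1 := by
  obtain ⟨hx1, hx2⟩ := hx
  have h0 : 0 ≤ η := by linarith
  have hxη : x ^ 2 ≤ η ^ 2 := by nlinarith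
  have hη : η ^ 2 ≤ 1 := by nlinarith
  have hr0 : 0 ≤ (1 - η ^ 2) / (1 - x ^ 2) := div_nonneg (by linarith) (by linarith)
  have hr1 : (1 - η ^ 2) / (1 - x ^ 2) ≤ 1 := div_le_one_of_le₀ (by linarith) (by linarith)
  unfold kk
  rw [Real.sq_sqrt (by nlinarith)]
  linarith

/-- Pointwise lower bound in the short regime. -/
theorem kk_short (η x : ℝ) (h1 : η ≤ 4 / 5) (hx : x ∈ Icc (-η) η) :
    √(η ^ 2 - x ^ 2) * (1414 / 1000 - 3875 / 10000 * η ^ 2 + 735 / 1000 * x ^ 2) ≤ kk η x := by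
  obtain ⟨hx1, hx2⟩ := hx
  have h0 : 0 ≤ η := by linarith
  have hxη : x ^ 2 ≤ η ^ 2 := by nlinarith
  have hη : η ^ 2 ≤ 16 / 25 := by nlinarith
  have hy0 : 0 ≤ x ^ 2 := sq_nonneg x
  have hw0 : 0 ≤ η ^ 2 := sq_nonneg η
  unfold kk
  apply Real.le_sqrt_of_sq_le
  rw [mul_pow, Real.sq_sqrt (by linarith)]
  clear hx1 hx2 h0 h1
  generalize η ^ 2 = w at *
  generalize x ^ 2 = y at *
  have hy1 : 0 < 1 - y := by linarith
  have e : 1 - ((1 - w) / (1 - y)) ^ 2 = (w - y) * ((2 - w - y) / (1 - y) ^ 2) := by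
    field_simp
    ring
  rw [e]
  apply mul_le_mul_of_nonneg_left _ (by linarith)
  rw [le_div_iff₀ (by positivity)]
  obtain ⟨g, hg⟩ : ∃ g, g = 1414 / 1000 - 3875 / 10000 * w := ⟨_, rfl⟩
  rw [← hg]
  have hg1 : 1166 / 1000 ≤ g := by rw [hg]; linarith
  have hg2 : g ≤ 1414 / 1000 := by rw [hg]; linarith
  have hgsq : g ^ 2 ≤ 2 - w := by rw [hg]; nlinarith [mul_nonneg hw0 (sub_nonneg.mpr hη)]
  have hy2 : y ≤ 16 / 25 := by linarith
  have e2 : (g + 735 / 1000 * y) ^ 2 * (1 - y) ^ 2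
      = g ^ 2 - 2 * g * (g - 735 / 1000) * y
        + y ^ 2 * ((g - 735 / 1000) ^ 2 - 2 * g * (735 / 1000)
          + 2 * (g - 735 / 1000) * (735 / 1000) * y + (735 / 1000) ^ 2 * y ^ 2) := by ring
  rw [e2]
  have h3 : 1 ≤ 2 * g * (g - 735 / 1000) := by nlinarith
  have h4 : (g - 735 / 1000) ^ 2 - 2 * g * (735 / 1000)
          + 2 * (g - 735 / 1000) * (735 / 1000) * y + (735 / 1000) ^ 2 * y ^ 2 ≤ 0 := by
    have a1 : (g - 735 / 1000) ^ 2 ≤ (679 / 1000) ^ 2 :=
      pow_le_pow_left₀ (by linarith) (by linarith) 2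
    have a2 : (g - 735 / 1000) * y ≤ (679 / 1000) * (16 / 25) :=
      mul_le_mul (by linarith) hy2 hy0 (by norm_num)
    have a3 : y ^ 2 ≤ (16 / 25) ^ 2 := pow_le_pow_left₀ hy0 hy2 2
    linarith
  have h5 := mul_nonpos_of_nonneg_of_nonpos (sq_nonneg y) h4
  linarith [mul_le_mul_of_nonneg_right h3 hy0]

theorem sym_short (η : ℝ) (h0 : 0 ≤ η) (h1 : η ≤ 4 / 5) :
    2 * η ^ 2 * (1 + (1 - η) / 200) ≤ ∫ x in (-η)..η, kk η x := by
  have hI : ∫ x in (-η)..η, √(η ^ 2 - x ^ 2) *
      (1414 / 1000 - 3875 / 10000 * η ^ 2 + 735 / 1000 * x ^ 2) ≤ ∫ x in (-η)..η, kk η x := by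
    apply intervalIntegral.integral_mono_on (by linarith)
    · apply Continuous.intervalIntegrable; fun_prop
    · apply ContinuousOn.intervalIntegrable
      rw [uIcc_of_le (by linarith)]
      exact kk_contOn η h0 (by linarith)
    · intro x hx; exact kk_short η x h1 hx
  have e : ∀ x : ℝ, √(η ^ 2 - x ^ 2) *
      (1414 / 1000 - 3875 / 10000 * η ^ 2 + 735 / 1000 * x ^ 2)
      = (1414 / 1000 - 3875 / 10000 * η ^ 2 + 735 / 4000 * η ^ 2) * √(η ^ 2 - x ^ 2)
        - 735 / 4000 * (√(η ^ 2 - x ^ 2) * (η ^ 2 - 4 * x ^ 2)) := by intro x; ring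
  simp only [e] at hI
  rw [intervalIntegral.integral_sub (by apply Continuous.intervalIntegrable; fun_prop)
    (by apply Continuous.intervalIntegrable; fun_prop), intervalIntegral.integral_const_mul,
    intervalIntegral.integral_const_mul, semicircle η h0, semicircle_two η h0] at hI
  refine le_trans ?_ hI
  have hpi := Real.pi_gt_d2
  have hη : η ^ 2 ≤ 16 / 25 := by nlinarith
  have hw0 : 0 ≤ η ^ 2 := sq_nonneg η
  have h2 : 12836 / 10000 ≤ 1414 / 1000 - 3875 / 10000 * η ^ 2 + 735 / 4000 * η ^ 2 := by linarith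
  have h3 : 12836 / 10000 * (314 / 100) ≤
      (1414 / 1000 - 3875 / 10000 * η ^ 2 + 735 / 4000 * η ^ 2) * Real.pi := by
    apply mul_le_mul h2 (by linarith) (by norm_num) (by linarith)
  have h4 := mul_le_mul_of_nonneg_right h3 hw0
  nlinarith [mul_nonneg hw0 h0]

theorem sqrt_poly_lower (ρ : ℝ) (h0 : 0 ≤ ρ) (h1 : ρ ≤ 1) :
    1 - ρ / 2 - ρ ^ 2 / 8 - 3 * ρ ^ 3 / 8 ≤ √(1 - ρ) := by
  apply Real.le_sqrt_of_sq_le
  have : 1 - ρ - (1 - ρ / 2 - ρ ^ 2 / 8 - 3 * ρ ^ 3 / 8) ^ 2
      = ρ ^ 3 * (1 - ρ) * (40 + 15 * ρ + 9 * ρ ^ 2) / 64 := by ring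
  have h2 : 0 ≤ ρ ^ 3 * (1 - ρ) * (40 + 15 * ρ + 9 * ρ ^ 2) / 64 := by
    have : 0 ≤ 1 - ρ := by linarith
    positivity
  linarith

/-- Pointwise lower bound in the long regime, in the variable `v = 1 - x`. -/
theorem kk_long (z v : ℝ) (hz : 0 < z) (hv : v ∈ Icc z 1) :
    1 - (z + (1 - z) * (z / v)) ^ 2 / 2 - (z + (1 - z) * (z / v)) ^ 4 / 8
      - 3 * (z + (1 - z) * (z / v)) ^ 6 / 8 ≤ kk (1 - z) (1 - v) := by
  obtain ⟨hv1, hv2⟩ := hv
  have hv0 : 0 < v := by linarith
  have hz1 : z ≤ 1 := by linarith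
  have hξ0 : 0 ≤ z / v := by positivity
  have hξ1 : z / v ≤ 1 := div_le_one_of_le₀ hv1 hv0.le
  set r := z + (1 - z) * (z / v) with hr
  have hr0 : 0 ≤ r := by rw [hr]; nlinarith
  have hr1 : r ≤ 1 := by rw [hr]; nlinarith
  have hq0 : 0 ≤ (1 - (1 - z) ^ 2) / (1 - (1 - v) ^ 2) :=
    div_nonneg (by nlinarith) (by nlinarith)
  have hq : (1 - (1 - z) ^ 2) / (1 - (1 - v) ^ 2) ≤ r := by
    rw [div_le_iff₀ (by nlinarith), hr]
    have e : (z + (1 - z) * (z / v)) * (1 - (1 - v) ^ 2) - (1 - (1 - z) ^ 2)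
        = z * ((v - z) * (1 - v)) := by
      field_simp
      ring
    have : 0 ≤ z * ((v - z) * (1 - v)) :=
      mul_nonneg hz.le (mul_nonneg (by linarith) (by linarith))
    linarith
  have h := sqrt_poly_lower (r ^ 2) (by positivity) (by nlinarith)
  have h2 : √(1 - r ^ 2) ≤ kk (1 - z) (1 - v) := by
    unfold kk
    apply Real.sqrt_le_sqrt
    nlinarith
  have e3 : (r ^ 2) ^ 2 = r ^ 4 := by ring
  have e4 : (r ^ 2) ^ 3 = r ^ 6 := by ring
  rw [e3, e4] at h
  linarith

theorem long_integral (z : ℝ) (hz : 0 < z) (hz1 : z ≤ 1 / 5) :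
    (1 - z) ^ 2 + z / 100 ≤ ∫ v in z..1, (1 - (z + (1 - z) * (z / v)) ^ 2 / 2
      - (z + (1 - z) * (z / v)) ^ 4 / 8 - 3 * (z + (1 - z) * (z / v)) ^ 6 / 8) := by
  set e := 1 - z with he
  set A0 := z ^ 2 / 2 + z ^ 4 / 8 + 3 * z ^ 6 / 8 with hA0
  set A1 := z * e + z ^ 3 * e / 2 + 9 * z ^ 5 * e / 4 with hA1
  set A2 := e ^ 2 / 2 + 3 * z ^ 2 * e ^ 2 / 4 + 45 * z ^ 4 * e ^ 2 / 8 with hA2
  set A3 := z * e ^ 3 / 2 + 15 * z ^ 3 * e ^ 3 / 2 with hA3
  set A4 := e ^ 4 / 8 + 45 * z ^ 2 * e ^ 4 / 8 with hA4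
  set A5 := 9 * z * e ^ 5 / 4 with hA5
  set A6 := 3 * e ^ 6 / 8 with hA6
  let F : ℝ → ℝ := fun v => (1 - A0) * v - A1 * z * Real.log v + A2 * z * (z / v)
    + A3 * z / 2 * (z / v) ^ 2 + A4 * z / 3 * (z / v) ^ 3 + A5 * z / 4 * (z / v) ^ 4
    + A6 * z / 5 * (z / v) ^ 5
  have key : ∫ v in z..1, (1 - (z + e * (z / v)) ^ 2 / 2
      - (z + e * (z / v)) ^ 4 / 8 - 3 * (z + e * (z / v)) ^ 6 / 8) = F 1 - F z := by
    apply intervalIntegral.integral_eq_sub_of_hasDerivAt
    · intro v hv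
      rw [uIcc_of_le (by linarith)] at hv
      have hv0 : v ≠ 0 := (lt_of_lt_of_le hz hv.1).ne'
      have hξ : HasDerivAt (fun v : ℝ => z / v) (-z / v ^ 2) v := by
        have h0 : HasDerivAt (fun v : ℝ => z / v) _ v :=
          (hasDerivAt_const v z).div (hasDerivAt_id v) hv0
        refine h0.congr_deriv ?_
        simp
      have h : HasDerivAt F _ v := ((((((((hasDerivAt_id v).const_mul (1 - A0)).sub
        ((Real.hasDerivAt_log hv0).const_mul (A1 * z))).add (hξ.const_mul (A2 * z))).add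
        ((hξ.pow 2).const_mul (A3 * z / 2))).add ((hξ.pow 3).const_mul (A4 * z / 3))).add
        ((hξ.pow 4).const_mul (A5 * z / 4))).add ((hξ.pow 5).const_mul (A6 * z / 5)))
      refine h.congr_deriv ?_
      simp only [hA0, hA1, hA2, hA3, hA4, hA5, hA6]
      norm_num
      field_simp
      ring
    · apply ContinuousOn.intervalIntegrable
      rw [uIcc_of_le (by linarith)]
      have hc : ContinuousOn (fun v : ℝ => z / v) (Icc z 1) := by
        apply ContinuousOn.div continuousOn_const continuousOn_id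
        intro v hv
        exact (lt_of_lt_of_le hz hv.1).ne'
      have hc2 : ContinuousOn (fun v : ℝ => z + e * (z / v)) (Icc z 1) :=
        continuousOn_const.add (continuousOn_const.mul hc)
      exact ((continuousOn_const.sub ((hc2.pow 2).div_const 2)).sub ((hc2.pow 4).div_const 8)).sub
        ((continuousOn_const.mul (hc2.pow 6)).div_const 8)
  rw [key]
  have hlog : - (z * Real.log z) ≤ 1 / 4 + 3863 / 10000 * z := by
    have h1 := Real.log_le_sub_one_of_pos (x := 1 / (4 * z)) (by positivity)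
    rw [one_div, Real.log_inv, Real.log_mul (by norm_num) hz.ne'] at h1
    have h4 : Real.log 4 = 2 * Real.log 2 := by
      rw [show (4 : ℝ) = 2 ^ 2 by norm_num, Real.log_pow]; norm_num
    have h2 := Real.log_two_lt_d9
    have h3 : - Real.log z ≤ (4 * z)⁻¹ + 3863 / 10000 := by linarith
    have h5 := mul_le_mul_of_nonneg_left h3 hz.le
    have h6 : z * ((4 * z)⁻¹ + 3863 / 10000) = 1 / 4 + 3863 / 10000 * z := by
      field_simp
    linarith
  have hA1pos : 0 ≤ A1 := by
    have : 0 ≤ e := by rw [he]; linarith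
    rw [hA1]; positivity
  have h7 := mul_le_mul_of_nonneg_left hlog hA1pos
  have hF : F 1 - F z = (1 - A0) * e + A1 * (z * Real.log z) - A2 * (z - z ^ 2)
      - A3 * (z - z ^ 3) / 2 - A4 * (z - z ^ 4) / 3 - A5 * (z - z ^ 5) / 4
      - A6 * (z - z ^ 6) / 5 := by
    simp only [F, Real.log_one, div_one, div_self hz.ne', he]
    ring
  rw [hF]
  have hpoly : (1 - A0) * e - A1 * (1 / 4 + 3863 / 10000 * z) - A2 * (z - z ^ 2)
      - A3 * (z - z ^ 3) / 2 - A4 * (z - z ^ 4) / 3 - A5 * (z - z ^ 5) / 4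
      - A6 * (z - z ^ 6) / 5 - e ^ 2 - z / 100
      = z * (37 / 300 - 2491 / 7500 * z - 5881 / 5000 * z ^ 2 + 113411 / 60000 * z ^ 3
        - 259661 / 60000 * z ^ 4 + 723733 / 40000 * z ^ 5 - 4283699 / 120000 * z ^ 6
        + 419 / 12 * z ^ 7 - 147 / 8 * z ^ 8 + 93 / 16 * z ^ 9 - 81 / 80 * z ^ 10
        + 3 / 40 * z ^ 11) := by
    simp only [hA0, hA1, hA2, hA3, hA4, hA5, hA6, he]
    ring
  have hp : 0 ≤ 37 / 300 - 2491 / 7500 * z - 5881 / 5000 * z ^ 2 + 113411 / 60000 * z ^ 3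
        - 259661 / 60000 * z ^ 4 + 723733 / 40000 * z ^ 5 - 4283699 / 120000 * z ^ 6
        + 419 / 12 * z ^ 7 - 147 / 8 * z ^ 8 + 93 / 16 * z ^ 9 - 81 / 80 * z ^ 10
        + 3 / 40 * z ^ 11 := by
    have b2 : z ^ 2 ≤ (1 / 5) ^ 2 := pow_le_pow_left₀ hz.le hz1 2
    have b4 : z ^ 4 ≤ (1 / 5) ^ 4 := pow_le_pow_left₀ hz.le hz1 4
    have b6 : z ^ 6 ≤ (1 / 5) ^ 6 := pow_le_pow_left₀ hz.le hz1 6
    have b8 : z ^ 8 ≤ (1 / 5) ^ 8 := pow_le_pow_left₀ hz.le hz1 8
    have b10 : z ^ 10 ≤ (1 / 5) ^ 10 := pow_le_pow_left₀ hz.le hz1 10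
    have c3 : 0 ≤ z ^ 3 := by positivity
    have c5 : 0 ≤ z ^ 5 := by positivity
    have c7 : 0 ≤ z ^ 7 := by positivity
    have c9 : 0 ≤ z ^ 9 := by positivity
    have c11 : 0 ≤ z ^ 11 := by positivity
    norm_num at b2 b4 b6 b8 b10
    linarith
  have := mul_nonneg hz.le hp
  linarith

theorem sym_long (η : ℝ) (h0 : 4 / 5 ≤ η) (h1 : η ≤ 1) :
    2 * η ^ 2 * (1 + (1 - η) / 200) ≤ ∫ x in (-η)..η, kk η x := by
  rcases h1.eq_or_lt with h | h
  · subst h
    have : kk 1 = fun _ => 1 := by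
      funext x; simp [kk]
    rw [this]; norm_num
  have hη0 : 0 ≤ η := by linarith
  have hc := kk_contOn η hη0 h1
  have hi1 : IntervalIntegrable (kk η) volume (-η) 0 := by
    apply ContinuousOn.intervalIntegrable
    rw [uIcc_of_le (by linarith)]
    exact hc.mono (Icc_subset_Icc le_rfl hη0)
  have hi2 : IntervalIntegrable (kk η) volume 0 η := by
    apply ContinuousOn.intervalIntegrable
    rw [uIcc_of_le (by linarith)]
    exact hc.mono (Icc_subset_Icc (by linarith) le_rfl)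
  rw [← intervalIntegral.integral_add_adjacent_intervals hi1 hi2]
  have e1 : ∫ x in (-η)..0, kk η x = ∫ x in (0 : ℝ)..η, kk η x := by
    have := intervalIntegral.integral_comp_neg (a := 0) (b := η) (f := kk η)
    simp only [kk_neg, neg_zero] at this
    exact this.symm
  rw [e1]
  set z := 1 - η with hz
  have hz0 : 0 < z := by rw [hz]; linarith
  have hz1 : z ≤ 1 / 5 := by rw [hz]; linarith
  have hηz : η = 1 - z := by rw [hz]; ring
  have e2 : ∫ x in (0 : ℝ)..η, kk η x = ∫ v in z..1, kk η (1 - v) := by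
    have := intervalIntegral.integral_comp_sub_left (a := z) (b := 1) (kk η) 1
    rw [this, sub_self, ← hηz]
  have hL := long_integral z hz0 hz1
  have hM : ∫ v in z..1, (1 - (z + (1 - z) * (z / v)) ^ 2 / 2
      - (z + (1 - z) * (z / v)) ^ 4 / 8 - 3 * (z + (1 - z) * (z / v)) ^ 6 / 8)
      ≤ ∫ v in z..1, kk η (1 - v) := by
    apply intervalIntegral.integral_mono_on (by linarith)
    · apply ContinuousOn.intervalIntegrable
      rw [uIcc_of_le (by linarith)]
      have hc : ContinuousOn (fun v : ℝ => z / v) (Icc z 1) := by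
        apply ContinuousOn.div continuousOn_const continuousOn_id
        intro v hv
        exact (lt_of_lt_of_le hz0 hv.1).ne'
      have hc2 : ContinuousOn (fun v : ℝ => z + (1 - z) * (z / v)) (Icc z 1) :=
        continuousOn_const.add (continuousOn_const.mul hc)
      exact ((continuousOn_const.sub ((hc2.pow 2).div_const 2)).sub ((hc2.pow 4).div_const 8)).sub
        ((continuousOn_const.mul (hc2.pow 6)).div_const 8)
    · apply ContinuousOn.intervalIntegrable
      rw [uIcc_of_le (by linarith)]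
      apply hc.comp (f := fun v => 1 - v) (by fun_prop)
      intro v hv
      obtain ⟨a1, a2⟩ := hv
      constructor <;> linarith
    · intro v hv
      rw [hηz]
      exact kk_long z v hz0 hv
  rw [e2]
  have h2 : η ^ 2 ≤ 1 := by nlinarith
  rw [← hηz] at hL hM
  nlinarith [mul_le_mul_of_nonneg_right h2 hz0.le]

theorem sym_bound (η : ℝ) (h0 : 0 ≤ η) (h1 : η ≤ 1) :
    2 * η ^ 2 * (1 + (1 - η) / 200) ≤ ∫ x in (-η)..η, kk η x := by
  rcases le_total η (4 / 5) with h | h
  · exact sym_short η h0 h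
  · exact sym_long η h h1

theorem sym_odd (η : ℝ) : ∫ x in (-η)..η, x * kk η x = 0 := by
  have := intervalIntegral.integral_comp_neg (a := -η) (b := η) (f := fun x => x * kk η x)
  simp only [kk_neg, neg_neg, neg_mul, intervalIntegral.integral_neg] at this
  linarith

end Pool.Agent.MP_08f2bd_gt

end

-- part MP_08f2bd_gt.Dual
section

/-!
The comparison profile with a plateau and the finite-dimensional dual inequality.
-/

set_option autoImplicit false
open MeasureTheory Set intervalIntegral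

namespace Pool.Agent.MP_08f2bd_gt

/-- The comparison profile: a parabolic cap with a flat top of half-width `1/10000`. -/
noncomputable def prof (t : ℝ) : ℝ :=
  1 - (max (|t - 1 / 2| - 1 / 10000) 0 / (4999 / 10000)) ^ 2

theorem prof_cont : Continuous prof := by
  unfold prof
  fun_prop

theorem prof_le_one (t : ℝ) : prof t ≤ 1 := by
  unfold prof
  nlinarith [sq_nonneg (max (|t - 1 / 2| - 1 / 10000) 0 / (4999 / 10000))]

theorem prof_plateau (t : ℝ) (h1 : 1 / 2 - 1 / 10000 ≤ t) (h2 : t ≤ 1 / 2 + 1 / 10000) :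
    prof t = 1 := by
  unfold prof
  have : |t - 1 / 2| ≤ 1 / 10000 := abs_le.mpr ⟨by linarith, by linarith⟩
  rw [max_eq_right (by linarith)]
  norm_num

theorem prof_zero : prof 0 = 0 := by
  unfold prof
  rw [abs_of_nonpos (by norm_num), max_eq_left (by norm_num)]
  norm_num

theorem prof_one : prof 1 = 0 := by
  unfold prof
  rw [abs_of_nonneg (by norm_num), max_eq_left (by norm_num)]
  norm_num

theorem prof_ge_par (t : ℝ) (h0 : 0 ≤ t) (h1 : t ≤ 1) : 4 * t * (1 - t) ≤ prof t := by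
  unfold prof
  have ha : |t - 1 / 2| ≤ 1 / 2 := abs_le.mpr ⟨by linarith, by linarith⟩
  have hb := abs_nonneg (t - 1 / 2)
  have h2 : max (|t - 1 / 2| - 1 / 10000) 0 / (4999 / 10000) ≤ 2 * |t - 1 / 2| := by
    rw [div_le_iff₀ (by norm_num)]
    apply max_le <;> linarith
  have h3 : 0 ≤ max (|t - 1 / 2| - 1 / 10000) 0 / (4999 / 10000) := by positivity
  have h4 := pow_le_pow_left₀ h3 h2 2
  rw [mul_pow, sq_abs] at h4
  nlinarith

theorem prof_nonneg (t : ℝ) (h0 : 0 ≤ t) (h1 : t ≤ 1) : 0 ≤ prof t :=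
  le_trans (by nlinarith) (prof_ge_par t h0 h1)

theorem prof_touch (l : ℝ) : ∃ m : ℝ, prof l = 1 - (l - m) ^ 2 / (4999 / 10000) ^ 2 ∧
    ∀ t : ℝ, 1 - (t - m) ^ 2 / (4999 / 10000) ^ 2 ≤ prof t := by
  have key : ∀ m : ℝ, |m - 1 / 2| ≤ 1 / 10000 →
      ∀ t : ℝ, 1 - (t - m) ^ 2 / (4999 / 10000) ^ 2 ≤ prof t := by
    intro m hm t
    unfold prof
    have h1 : max (|t - 1 / 2| - 1 / 10000) 0 ≤ |t - m| := by
      apply max_le _ (abs_nonneg _)
      have := abs_add_le (t - m) (m - 1 / 2)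
      rw [show t - m + (m - 1 / 2) = t - 1 / 2 by ring] at this
      linarith
    have h4 := pow_le_pow_left₀ (le_max_right _ _) h1 2
    rw [sq_abs] at h4
    rw [div_pow]
    have := div_le_div_of_nonneg_right h4 (show (0 : ℝ) ≤ (4999 / 10000) ^ 2 by norm_num)
    linarith
  rcases le_total l (1 / 2 - 1 / 10000) with h | h
  · refine ⟨1 / 2 - 1 / 10000, ?_, key _ (by rw [abs_of_nonpos (by norm_num)]; norm_num)⟩
    unfold prof
    rw [abs_of_nonpos (by linarith), max_eq_left (by linarith)]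
    ring
  rcases le_total l (1 / 2 + 1 / 10000) with h' | h'
  · refine ⟨l, ?_, key _ (abs_le.mpr ⟨by linarith, by linarith⟩)⟩
    rw [prof_plateau l h h']
    ring
  · refine ⟨1 / 2 + 1 / 10000, ?_, key _ (by rw [abs_of_nonneg (by norm_num)]; norm_num)⟩
    unfold prof
    rw [abs_of_nonneg (by linarith), max_eq_left (by linarith)]
    ring

theorem prof_shift (l : ℝ) (h0 : 0 ≤ l) (h1 : l ≤ 1) :
    ∃ l' : ℝ, |l' - l| ≤ 1 / 10000 ∧ prof l = 4 * l' * (1 - l') := by
  rcases le_total l (1 / 2 - 1 / 10000) with h | h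
  · refine ⟨l / (9998 / 10000), abs_le.mpr ⟨by linarith, by linarith⟩, ?_⟩
    unfold prof
    rw [abs_of_nonpos (by linarith), max_eq_left (by linarith)]
    ring
  rcases le_total l (1 / 2 + 1 / 10000) with h' | h'
  · refine ⟨1 / 2, abs_le.mpr ⟨by linarith, by linarith⟩, ?_⟩
    rw [prof_plateau l h h']
    norm_num
  · refine ⟨1 - (1 - l) / (9998 / 10000), abs_le.mpr ⟨by linarith, by linarith⟩, ?_⟩
    unfold prof
    rw [abs_of_nonneg (by linarith), max_eq_left (by linarith)]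
    ring

theorem cs_sqrt (J q s c : ℝ) (h : s ^ 2 + c ^ 2 ≤ 1) : J * s + c * q ≤ √(J ^ 2 + q ^ 2) := by
  apply Real.le_sqrt_of_sq_le
  have h1 : (J * s + c * q) ^ 2 ≤ (s ^ 2 + c ^ 2) * (J ^ 2 + q ^ 2) := by
    nlinarith [sq_nonneg (J * c - s * q)]
  have h2 : (s ^ 2 + c ^ 2) * (J ^ 2 + q ^ 2) ≤ 1 * (J ^ 2 + q ^ 2) :=
    mul_le_mul_of_nonneg_right h (by positivity)
  linarith

/-- The dual certificate for the interval `[a, b]` and the mean `l`. -/
def Cert (a b l : ℝ) : Prop :=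
  ∃ α β : ℝ, ∃ c : ℝ → ℝ, ContinuousOn c (Icc a b) ∧ (∀ t ∈ Icc a b, 0 ≤ c t) ∧
    (∀ t ∈ Icc a b, ∀ q : ℝ, α + β * t + c t * q ≤ √(prof t ^ 2 + q ^ 2)) ∧
    prof l ≤ α + β * l + ∫ t in a..b, c t

theorem cert_short (a b l : ℝ) (hal : a ≤ l) (hlb : l ≤ b)
    (hh : b - a ≤ 1 / 2) : Cert a b l := by
  obtain ⟨m, hm1, hm2⟩ := prof_touch l
  refine ⟨1 - (m ^ 2 - a * b) / (4999 / 10000) ^ 2, -(a + b - 2 * m) / (4999 / 10000) ^ 2,
    fun t => 26 / 10 * √((t - a) * (b - t)), by fun_prop, fun t _ => by positivity, ?_, ?_⟩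
  · intro t ht q
    obtain ⟨ht1, ht2⟩ := ht
    have hp : 0 ≤ (t - a) * (b - t) := mul_nonneg (by linarith) (by linarith)
    have hp2 : (t - a) * (b - t) ≤ 1 / 16 := by nlinarith [sq_nonneg (t - a - (b - t))]
    obtain ⟨P, hP⟩ : ∃ P, P = (t - a) * (b - t) := ⟨_, rfl⟩
    have e : 1 - (m ^ 2 - a * b) / (4999 / 10000) ^ 2 + -(a + b - 2 * m) / (4999 / 10000) ^ 2 * t
        = 1 - (t - m) ^ 2 / (4999 / 10000) ^ 2 - P / (4999 / 10000) ^ 2 := by
      rw [hP]; ring
    rw [e]
    simp only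
    rw [← hP] at hp hp2 ⊢
    have h1 := cs_sqrt (prof t) q (1 - P / (4999 / 10000) ^ 2) (26 / 10 * √P) (by
      rw [mul_pow, Real.sq_sqrt hp,
        show P / (4999 / 10000) ^ 2 = 100000000 / 24990001 * P by ring]
      nlinarith [mul_nonneg hp (sub_nonneg.mpr hp2)])
    refine le_trans ?_ h1
    have h2 := hm2 t
    have h3 := prof_le_one t
    have h4 : 0 ≤ P / (4999 / 10000) ^ 2 := by positivity
    nlinarith [mul_nonneg h4 (sub_nonneg.mpr h3)]
  · have hd : 0 ≤ (b - a) / 2 := by linarith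
    have hs := semicircle ((b - a) / 2) hd
    have e1 : ∫ t in a..b, √((t - a) * (b - t))
        = ∫ x in (-((b - a) / 2))..((b - a) / 2), √(((b - a) / 2) ^ 2 - x ^ 2) := by
      have := intervalIntegral.integral_comp_sub_right (a := a) (b := b)
        (fun x => √(((b - a) / 2) ^ 2 - x ^ 2)) ((a + b) / 2)
      rw [show a - (a + b) / 2 = -((b - a) / 2) by ring,
        show b - (a + b) / 2 = (b - a) / 2 by ring] at this
      rw [← this]
      congr 1
      funext t
      congr 1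
      ring
    rw [intervalIntegral.integral_const_mul, e1, hs, hm1]
    have hpi : (314 / 100 : ℝ) < Real.pi := by have := Real.pi_gt_d2; linarith
    have e : 1 - (m ^ 2 - a * b) / (4999 / 10000) ^ 2 + -(a + b - 2 * m) / (4999 / 10000) ^ 2 * l
        = 1 - (l - m) ^ 2 / (4999 / 10000) ^ 2 - 100000000 / 24990001 * ((l - a) * (b - l)) := by
      ring
    rw [e]
    have hp2 : (l - a) * (b - l) ≤ ((b - a) / 2) ^ 2 := by nlinarith [sq_nonneg (l - a - (b - l))]
    have h5 := mul_le_mul_of_nonneg_right hpi.le (sq_nonneg ((b - a) / 2))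
    have h6 := sq_nonneg ((b - a) / 2)
    generalize ((b - a) / 2) ^ 2 = D at *
    generalize (l - a) * (b - l) = P at *
    generalize (l - m) ^ 2 / (4999 / 10000) ^ 2 = Q at *
    nlinarith

theorem weighted (m d c0 σ : ℝ) (hm : 0 < m) (hd : 0 ≤ d) (hdm : d ≤ m) :
    2 * d ^ 2 * (1 + (1 - d / m) / 200) ≤
      ∫ t in (c0 - d)..(c0 + d), (m + σ * (t - c0)) * kk (d / m) ((t - c0) / m) := by
  have hη0 : 0 ≤ d / m := by positivity
  have hη1 : d / m ≤ 1 := div_le_one_of_le₀ hdm hm.le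
  have e1 := intervalIntegral.integral_comp_sub_right (a := c0 - d) (b := c0 + d)
    (fun y => (m + σ * y) * kk (d / m) (y / m)) c0
  rw [e1, show c0 - d - c0 = -d by ring, show c0 + d - c0 = d by ring]
  have e2 := intervalIntegral.integral_comp_div (a := -d) (b := d)
    (fun x => (m + σ * (m * x)) * kk (d / m) x) hm.ne'
  have e3 : ∀ y : ℝ, m * (y / m) = y := by intro y; field_simp
  simp only [e3] at e2
  rw [e2, neg_div]
  have hc := kk_contOn (d / m) hη0 hη1
  have hi : IntervalIntegrable (kk (d / m)) volume (-(d / m)) (d / m) := by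
    apply ContinuousOn.intervalIntegrable
    rw [uIcc_of_le (by linarith)]
    exact hc
  have hi2 : IntervalIntegrable (fun x => x * kk (d / m) x) volume (-(d / m)) (d / m) := by
    apply ContinuousOn.intervalIntegrable
    rw [uIcc_of_le (by linarith)]
    exact continuousOn_id.mul hc
  have e4 : ∀ x : ℝ, (m + σ * (m * x)) * kk (d / m) x
      = m * kk (d / m) x + σ * m * (x * kk (d / m) x) := by intro x; ring
  simp only [e4]
  rw [intervalIntegral.integral_add (hi.const_mul _) (hi2.const_mul _),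
    intervalIntegral.integral_const_mul, intervalIntegral.integral_const_mul, sym_odd]
  have h := sym_bound (d / m) hη0 hη1
  have h2 := mul_le_mul_of_nonneg_left h (sq_nonneg m)
  have e5 : m ^ 2 * (2 * (d / m) ^ 2 * (1 + (1 - d / m) / 200))
      = 2 * d ^ 2 * (1 + (1 - d / m) / 200) := by field_simp
  rw [e5] at h2
  simp only [smul_eq_mul, mul_zero, add_zero]
  nlinarith

theorem weighted_cont (m d c0 σ : ℝ) (hm : 0 < m) (hd : 0 ≤ d) (hdm : d ≤ m) :
    ContinuousOn (fun t => (m + σ * (t - c0)) * kk (d / m) ((t - c0) / m))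
      (Icc (c0 - d) (c0 + d)) := by
  have hη0 : 0 ≤ d / m := by positivity
  have hη1 : d / m ≤ 1 := div_le_one_of_le₀ hdm hm.le
  apply ContinuousOn.mul (by fun_prop)
  apply (kk_contOn (d / m) hη0 hη1).comp (f := fun t => (t - c0) / m) (by fun_prop)
  intro t ht
  obtain ⟨h1, h2⟩ := ht
  constructor
  · rw [← neg_div]; exact div_le_div_of_nonneg_right (by linarith) hm.le
  · exact div_le_div_of_nonneg_right (by linarith) hm.le

/-- One of the two symmetric pieces of the calibration in the long regime. -/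
theorem piece (m d y σ J q : ℝ) (hm : 0 < m) (hdm : d ≤ m) (hy : y ∈ Icc (-d) d)
    (hσ : σ ^ 2 = 1) (X : ℝ) (hJ : (m - σ * y) * X ≤ J) :
    (m ^ 2 - d ^ 2) * X + (m + σ * y) * kk (d / m) (y / m) * q
      ≤ (m + σ * y) * √(J ^ 2 + q ^ 2) := by
  obtain ⟨hy1, hy2⟩ := hy
  have hd : 0 ≤ d := by linarith
  have hη1 : d / m ≤ 1 := div_le_one_of_le₀ hdm hm.le
  have hx : y / m ∈ Icc (-(d / m)) (d / m) := by
    constructor
    · rw [← neg_div]; exact div_le_div_of_nonneg_right hy1 hm.le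
    · exact div_le_div_of_nonneg_right hy2 hm.le
  have hk := kk_sq (d / m) (y / m) hη1 hx
  have hyd : y ^ 2 ≤ d ^ 2 := by nlinarith
  have hdm2 : d ^ 2 ≤ m ^ 2 := by nlinarith
  have hσy : (σ * y) ^ 2 ≤ m ^ 2 := by rw [mul_pow, hσ]; linarith
  have habs := abs_le_of_sq_le_sq' hσy hm.le
  have hθ : 0 ≤ m + σ * y := by linarith [habs.1]
  obtain ⟨r, hr⟩ : ∃ r, r = (1 - (d / m) ^ 2) / (1 - (y / m) ^ 2) := ⟨_, rfl⟩
  rw [← hr] at hk
  have hr' : r = (m ^ 2 - d ^ 2) / (m ^ 2 - y ^ 2) := by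
    rw [hr, show 1 - (d / m) ^ 2 = (m ^ 2 - d ^ 2) / m ^ 2 by field_simp,
      show 1 - (y / m) ^ 2 = (m ^ 2 - y ^ 2) / m ^ 2 by field_simp,
      div_div_div_cancel_right₀ (by positivity)]
  have hr0 : 0 ≤ r := by rw [hr']; exact div_nonneg (by linarith) (by linarith)
  have hprod : (m ^ 2 - y ^ 2) * r = m ^ 2 - d ^ 2 := by
    rcases eq_or_ne (m ^ 2 - y ^ 2) 0 with h | h
    · rw [h]; linarith
    · rw [hr']; field_simp
  have h1 := cs_sqrt J q r (kk (d / m) (y / m)) (by linarith)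
  have h2 := mul_le_mul_of_nonneg_left h1 hθ
  have h3 : (m ^ 2 - d ^ 2) * X ≤ (m + σ * y) * (J * r) := by
    have e : m ^ 2 - y ^ 2 = (m + σ * y) * (m - σ * y) := by
      have : (m + σ * y) * (m - σ * y) = m ^ 2 - σ ^ 2 * y ^ 2 := by ring
      rw [this, hσ]; ring
    rw [← hprod, e]
    have := mul_le_mul_of_nonneg_left hJ (mul_nonneg hθ hr0)
    nlinarith
  nlinarith

theorem cert_long (a b l : ℝ) (ha : 0 ≤ a) (hal : a ≤ l) (hlb : l ≤ b) (hb : b ≤ 1)
    (hh : 1 / 2 ≤ b - a) : Cert a b l := by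
  obtain ⟨m, hm⟩ : ∃ m, m = (a + b) / 2 := ⟨_, rfl⟩
  obtain ⟨d, hd⟩ : ∃ d, d = (b - a) / 2 := ⟨_, rfl⟩
  have ea : a = m - d := by rw [hm, hd]; ring
  have eb : b = m + d := by rw [hm, hd]; ring
  have hd4 : 1 / 4 ≤ d := by rw [hd]; linarith
  subst ea eb
  clear hm hd hh
  have hd0 : 0 ≤ d := by linarith
  have hm0 : 0 < m := by linarith
  have hm1 : 0 < 1 - m := by linarith
  have hdm : d ≤ m := by linarith
  have hdm' : d ≤ 1 - m := by linarith
  have hc1 := weighted_cont m d m (-1) hm0 hd0 hdm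
  have hc2 := weighted_cont (1 - m) d m 1 hm1 hd0 hdm'
  refine ⟨4 * (m ^ 2 - d ^ 2), 4 * (1 - 2 * m), fun t =>
    (m + (-1) * (t - m)) * kk (d / m) ((t - m) / m)
      + (1 - m + 1 * (t - m)) * kk (d / (1 - m)) ((t - m) / (1 - m)), hc1.add hc2, ?_, ?_, ?_⟩
  · intro t ht
    obtain ⟨h1, h2⟩ := ht
    exact add_nonneg (mul_nonneg (by linarith) (kk_nonneg _ _))
      (mul_nonneg (by linarith) (kk_nonneg _ _))
  · intro t ht q
    obtain ⟨h1, h2⟩ := ht
    have hy : t - m ∈ Icc (-d) d := ⟨by linarith, by linarith⟩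
    have hJ := prof_ge_par t (by linarith) (by linarith)
    have p1 := piece m d (t - m) (-1) (prof t) q hm0 hdm hy (by norm_num) (4 * (1 - t))
      (by linarith)
    have p2 := piece (1 - m) d (t - m) 1 (prof t) q hm1 hdm' hy (by norm_num) (4 * t)
      (by linarith)
    simp only
    nlinarith
  · have hi1 := (uIcc_of_le (show m - d ≤ m + d by linarith) ▸ hc1).intervalIntegrable
      (μ := volume)
    have hi2 := (uIcc_of_le (show m - d ≤ m + d by linarith) ▸ hc2).intervalIntegrable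
      (μ := volume)
    rw [intervalIntegral.integral_add hi1 hi2]
    have w1 := weighted m d m (-1) hm0 hd0 hdm
    have w2 := weighted (1 - m) d m 1 hm1 hd0 hdm'
    obtain ⟨l', hl1, hl2⟩ := prof_shift l (by linarith) (by linarith)
    have q1 : m - d ≤ 1 - d / m := by
      have : 1 - d / m = (m - d) / m := by field_simp
      rw [this, le_div_iff₀ hm0]
      nlinarith
    have q2 : 1 - m - d ≤ 1 - d / (1 - m) := by
      have : 1 - d / (1 - m) = (1 - m - d) / (1 - m) := by field_simp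
      rw [this, le_div_iff₀ hm1]
      nlinarith
    have hd2 : 1 / 16 ≤ d ^ 2 := by nlinarith
    have s1 : 2 * d ^ 2 * (1 + (m - d) / 200) ≤ 2 * d ^ 2 * (1 + (1 - d / m) / 200) :=
      mul_le_mul_of_nonneg_left (by linarith) (by positivity)
    have s2 : 2 * d ^ 2 * (1 + (1 - m - d) / 200) ≤ 2 * d ^ 2 * (1 + (1 - d / (1 - m)) / 200) :=
      mul_le_mul_of_nonneg_left (by linarith) (by positivity)
    have s3 : 1 / 16 * (1 - 2 * d) ≤ d ^ 2 * (1 - 2 * d) :=
      mul_le_mul_of_nonneg_right hd2 (by linarith)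
    have s4 : (1 - 2 * m) * (l' - l) ≤ (1 - 2 * d) * (1 / 10000) := by
      calc (1 - 2 * m) * (l' - l) ≤ |(1 - 2 * m) * (l' - l)| := le_abs_self _
        _ = |1 - 2 * m| * |l' - l| := abs_mul _ _
        _ ≤ (1 - 2 * d) * (1 / 10000) :=
          mul_le_mul (abs_le.mpr ⟨by linarith, by linarith⟩) hl1 (abs_nonneg _) (by linarith)
    rw [hl2]
    nlinarith [sq_nonneg (l' - m)]

theorem cert (a b l : ℝ) (ha : 0 ≤ a) (hal : a ≤ l) (hlb : l ≤ b) (hb : b ≤ 1) : Cert a b l := by
  rcases le_total (b - a) (1 / 2) with h | h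
  · exact cert_short a b l hal hlb h
  · exact cert_long a b l ha hal hlb hb h

end Pool.Agent.MP_08f2bd_gt

end

-- part MP_08f2bd_gt.OneDim
section

/-!
The one-dimensional functional inequality of Bobkov type for the plateau profile.
-/

set_option autoImplicit false
open MeasureTheory Set intervalIntegral

namespace Pool.Agent.MP_08f2bd_gt

theorem bob_interval (α β : ℝ) (hαβ : α < β) (f f' : ℝ → ℝ)
    (hf : ∀ x, HasDerivAt f (f' x) x) (hf' : Continuous f') (hr : ∀ x, f x ∈ Icc (0 : ℝ) 1) :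
    prof ((β - α)⁻¹ * ∫ x in α..β, f x) ≤
      (β - α)⁻¹ * ∫ x in α..β, √(prof (f x) ^ 2 + (β - α) ^ 2 * f' x ^ 2) := by
  have hfc : Continuous f := continuous_iff_continuousAt.mpr fun x => (hf x).continuousAt
  have hs : 0 < β - α := by linarith
  have hne : (Icc α β).Nonempty := ⟨α, le_rfl, hαβ.le⟩
  obtain ⟨xa, hxa, hmin⟩ := isCompact_Icc.exists_isMinOn hne hfc.continuousOn
  obtain ⟨xb, hxb, hmax⟩ := isCompact_Icc.exists_isMaxOn hne hfc.continuousOn
  have hab : ∀ x ∈ Icc α β, f x ∈ Icc (f xa) (f xb) := fun x hx => ⟨hmin hx, hmax hx⟩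
  have hfi : IntervalIntegrable f volume α β := hfc.intervalIntegrable _ _
  obtain ⟨l, hl⟩ : ∃ l, l = (β - α)⁻¹ * ∫ x in α..β, f x := ⟨_, rfl⟩
  have hI : ∫ x in α..β, f x = (β - α) * l := by rw [hl]; field_simp
  have hal : f xa ≤ l := by
    have h := intervalIntegral.integral_mono_on (μ := volume) hαβ.le
      (f := fun _ => f xa) (g := f) (by simp) hfi (fun x hx => (hab x hx).1)
    rw [intervalIntegral.integral_const, hI, smul_eq_mul] at h
    exact le_of_mul_le_mul_left h hs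
  have hlb : l ≤ f xb := by
    have h := intervalIntegral.integral_mono_on (μ := volume) hαβ.le
      (g := fun _ => f xb) (f := f) hfi (by simp) (fun x hx => (hab x hx).2)
    rw [intervalIntegral.integral_const, hI, smul_eq_mul] at h
    exact le_of_mul_le_mul_left h hs
  obtain ⟨a0, b0, c, hc, hc0, hpt, hfin⟩ := cert (f xa) (f xb) l (hr xa).1 hal hlb (hr xb).2
  rw [← hl]
  have hcf : ContinuousOn (fun x => c (f x)) (Icc α β) := hc.comp hfc.continuousOn hab
  have hg : ContinuousOn (fun x => c (f x) * |f' x|) (Icc α β) :=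
    hcf.mul hf'.abs.continuousOn
  have hgi : IntervalIntegrable (fun x => c (f x) * |f' x|) volume α β := by
    apply ContinuousOn.intervalIntegrable
    rw [uIcc_of_le hαβ.le]; exact hg
  have hsub : uIcc xa xb ⊆ Icc α β := uIcc_subset_Icc hxa hxb
  have h1 : ∫ t in (f xa)..(f xb), c t ≤ ∫ x in α..β, c (f x) * |f' x| := by
    have e := intervalIntegral.integral_comp_mul_deriv' (a := xa) (b := xb) (f := f) (f' := f')
      (g := c) (fun x _ => hf x) hf'.continuousOn
      (hc.mono (by rintro _ ⟨x, hx, rfl⟩; exact hab x (hsub hx)))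
    rw [← e]
    have h2 := intervalIntegral.norm_integral_le_abs_integral_norm (μ := volume) (a := xa)
      (b := xb) (f := fun x => (c ∘ f) x * f' x)
    have h3 : ∫ x in xa..xb, ‖(c ∘ f) x * f' x‖ = ∫ x in xa..xb, c (f x) * |f' x| := by
      apply intervalIntegral.integral_congr
      intro x hx
      have := hc0 _ (hab x (hsub hx))
      simp only [Function.comp, norm_mul, Real.norm_eq_abs, abs_of_nonneg this]
    have h4 : |∫ x in xa..xb, c (f x) * (|f' x|)| ≤ |∫ x in α..β, c (f x) * (|f' x|)| := by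
      apply intervalIntegral.abs_integral_mono_interval _ _ hgi
      · rw [uIoc_of_le hαβ.le]
        intro x hx
        exact ⟨lt_of_le_of_lt (le_min hxa.1 hxb.1) hx.1, le_trans hx.2 (max_le hxa.2 hxb.2)⟩
      · rw [uIoc_of_le hαβ.le]
        filter_upwards [ae_restrict_mem measurableSet_Ioc] with x hx
        exact mul_nonneg (hc0 _ (hab x ⟨hx.1.le, hx.2⟩)) (abs_nonneg _)
    have h5 : 0 ≤ ∫ x in α..β, c (f x) * |f' x| :=
      intervalIntegral.integral_nonneg hαβ.le fun x hx =>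
        mul_nonneg (hc0 _ (hab x hx)) (abs_nonneg _)
    rw [abs_of_nonneg h5] at h4
    rw [h3, Real.norm_eq_abs] at h2
    exact le_trans (le_abs_self _) (h2.trans h4)
  have h6 : ∫ x in α..β, (a0 + b0 * f x + (β - α) * (c (f x) * |f' x|))
      ≤ ∫ x in α..β, √(prof (f x) ^ 2 + (β - α) ^ 2 * f' x ^ 2) := by
    apply intervalIntegral.integral_mono_on hαβ.le
    · exact (intervalIntegrable_const.add (hfi.const_mul _)).add (hgi.const_mul _)
    · apply Continuous.intervalIntegrable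
      have := prof_cont
      fun_prop
    · intro x hx
      have := hpt (f x) (hab x hx) ((β - α) * |f' x|)
      rw [mul_pow, sq_abs] at this
      linarith
  rw [intervalIntegral.integral_add (intervalIntegrable_const.add (hfi.const_mul _))
    (hgi.const_mul _), intervalIntegral.integral_add intervalIntegrable_const (hfi.const_mul _),
    intervalIntegral.integral_const_mul, intervalIntegral.integral_const_mul,
    intervalIntegral.integral_const, hI, smul_eq_mul] at h6
  rw [← div_eq_inv_mul, le_div_iff₀ hs]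
  nlinarith [mul_le_mul_of_nonneg_left h1 hs.le, mul_le_mul_of_nonneg_left hfin hs.le]

/-- The one-dimensional inequality for a measure on the line, with gradient weight `s`. -/
def Bob1 (ν : Measure ℝ) (s : ℝ) : Prop :=
  ∀ f f' : ℝ → ℝ, (∀ x, HasDerivAt f (f' x) x) → Continuous f' → (∀ x, f x ∈ Icc (0 : ℝ) 1) →
    prof (∫ x, f x ∂ν) ≤ ∫ x, √(prof (f x) ^ 2 + s ^ 2 * f' x ^ 2) ∂ν

/-- The uniform probability measure on `[α, β]`. -/
noncomputable def unif (α β : ℝ) : Measure ℝ :=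
  (ENNReal.ofReal (β - α))⁻¹ • volume.restrict (Icc α β)

theorem unif_prob (α β : ℝ) (h : α < β) : IsProbabilityMeasure (unif α β) := by
  constructor
  have : ENNReal.ofReal (β - α) ≠ 0 := by simp [h]
  simp [unif, ENNReal.inv_mul_cancel this ENNReal.ofReal_ne_top]

theorem integral_unif (α β : ℝ) (h : α < β) (g : ℝ → ℝ) :
    ∫ x, g x ∂(unif α β) = (β - α)⁻¹ * ∫ x in α..β, g x := by
  rw [unif, MeasureTheory.integral_smul_measure, intervalIntegral.integral_of_le h.le,
    integral_Icc_eq_integral_Ioc, ENNReal.toReal_inv, ENNReal.toReal_ofReal (by linarith),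
    smul_eq_mul]

theorem bob1_unif (α β : ℝ) (h : α < β) : Bob1 (unif α β) (β - α) := by
  intro f f' hf hf' hr
  rw [integral_unif α β h, integral_unif α β h]
  exact bob_interval α β h f f' hf hf' hr

end Pool.Agent.MP_08f2bd_gt

end

-- part MP_08f2bd_gt.Tensor
section

/-!
Tensorisation of the functional inequality.
-/

set_option autoImplicit false
open MeasureTheory Set

namespace Pool.Agent.MP_08f2bd_gt

theorem integrable_of_bdd {X : Type*} [TopologicalSpace X] [MeasurableSpace X]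
    [OpensMeasurableSpace X] (μ : Measure X) [IsFiniteMeasure μ] (F : X → ℝ) (hF : Continuous F)
    (C : ℝ) (hC : ∀ x, |F x| ≤ C) : Integrable F μ :=
  Integrable.of_bound hF.aestronglyMeasurable C (Filter.Eventually.of_forall hC)

theorem fubini_cons (ν : Measure ℝ) [IsProbabilityMeasure ν] (d : ℕ)
    (F : (Fin (d + 1) → ℝ) → ℝ) (hF : Continuous F) (C : ℝ) (hC : ∀ x, |F x| ≤ C) :
    ∫ x, F x ∂(Measure.pi fun _ => ν)
      = ∫ t, ∫ y, F (Fin.cons t y) ∂(Measure.pi fun _ : Fin d => ν) ∂ν := by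
  have hmp := (measurePreserving_piFinSuccAbove (fun _ : Fin (d + 1) => ν) 0).symm
  rw [← hmp.integral_comp' F]
  have e : ∀ p : ℝ × (Fin d → ℝ),
      (MeasurableEquiv.piFinSuccAbove (fun _ : Fin (d + 1) => ℝ) 0).symm p = Fin.cons p.1 p.2 := by
    intro p
    simp [MeasurableEquiv.piFinSuccAbove, Fin.insertNthEquiv]
  simp only [e]
  rw [integral_prod]
  apply integrable_of_bdd _ _ _ C (fun p => hC _)
  exact hF.comp (by fun_prop)

theorem minkowski2 {X : Type*} [MeasurableSpace X] (μ : Measure X) (u v : X → ℝ)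
    (hu : Integrable u μ) (hv : Integrable v μ)
    (huv : Integrable (fun x => √(u x ^ 2 + v x ^ 2)) μ) :
    √((∫ x, u x ∂μ) ^ 2 + (∫ x, v x ∂μ) ^ 2) ≤ ∫ x, √(u x ^ 2 + v x ^ 2) ∂μ := by
  obtain ⟨A, hA⟩ : ∃ A, A = ∫ x, u x ∂μ := ⟨_, rfl⟩
  obtain ⟨B, hB⟩ : ∃ B, B = ∫ x, v x ∂μ := ⟨_, rfl⟩
  rw [← hA, ← hB]
  rcases eq_or_lt_of_le (Real.sqrt_nonneg (A ^ 2 + B ^ 2)) with h | h
  · rw [← h]; exact integral_nonneg fun x => Real.sqrt_nonneg _
  obtain ⟨R, hR⟩ : ∃ R, R = √(A ^ 2 + B ^ 2) := ⟨_, rfl⟩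
  have hR2 : R ^ 2 = A ^ 2 + B ^ 2 := by rw [hR]; exact Real.sq_sqrt (by positivity)
  rw [← hR] at h ⊢
  have h1 : ∫ x, (u x * (A / R) + B / R * v x) ∂μ ≤ ∫ x, √(u x ^ 2 + v x ^ 2) ∂μ := by
    apply integral_mono ((hu.mul_const _).add (hv.const_mul _)) huv
    intro x
    apply cs_sqrt
    rw [div_pow, div_pow, ← add_div, ← hR2, div_self (by positivity)]
  rw [integral_add (hu.mul_const _) (hv.const_mul _), integral_mul_const, integral_const_mul,
    ← hA, ← hB] at h1
  have e : A * (A / R) + B / R * B = R := by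
    field_simp
    linarith
  rwa [e] at h1

theorem prof_abs_le (t : ℝ) (ht : t ∈ Icc (0 : ℝ) 1) : |prof t| ≤ 1 :=
  abs_le.mpr ⟨by linarith [prof_nonneg t ht.1 ht.2], prof_le_one t⟩

theorem sqrt_bound (p s C : ℝ) (d : ℕ) (w : Fin d → ℝ) (hp : |p| ≤ 1) (hw : ∀ i, |w i| ≤ C) :
    |√(p ^ 2 + s ^ 2 * ∑ i, w i ^ 2)| ≤ √(1 + s ^ 2 * (d * C ^ 2)) := by
  rw [abs_of_nonneg (Real.sqrt_nonneg _)]
  apply Real.sqrt_le_sqrt
  have h1 : p ^ 2 ≤ 1 := by rw [← sq_abs]; nlinarith [abs_nonneg p]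
  have h2 : ∑ i, w i ^ 2 ≤ d * C ^ 2 := by
    calc ∑ i, w i ^ 2 ≤ ∑ _i : Fin d, C ^ 2 := by
          apply Finset.sum_le_sum
          intro i _
          rw [← sq_abs]
          exact pow_le_pow_left₀ (abs_nonneg _) (hw i) 2
      _ = d * C ^ 2 := by simp
  nlinarith [mul_le_mul_of_nonneg_left h2 (sq_nonneg s)]

theorem bob_pi (ν : Measure ℝ) [IsProbabilityMeasure ν] (s : ℝ) (h1 : Bob1 ν s) (d : ℕ) :
    ∀ (f : (Fin d → ℝ) → ℝ) (D : Fin d → (Fin d → ℝ) → ℝ) (C : ℝ), Continuous f →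
      (∀ i, Continuous (D i)) → (∀ i x, |D i x| ≤ C) →
      (∀ i x, HasDerivAt (fun t => f (Function.update x i t)) (D i x) (x i)) →
      (∀ x, f x ∈ Icc (0 : ℝ) 1) →
      prof (∫ x, f x ∂(Measure.pi fun _ => ν)) ≤
        ∫ x, √(prof (f x) ^ 2 + s ^ 2 * ∑ i, D i x ^ 2) ∂(Measure.pi fun _ => ν) := by
  induction d with
  | zero =>
    intro f D C hf hD hC hder hr
    have e : ∀ x : Fin 0 → ℝ, x = default := fun x => Subsingleton.elim _ _
    have e1 : f = fun _ => f default := by funext x; rw [e x]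
    rw [e1]
    simp only [integral_const, probReal_univ, smul_eq_mul, one_mul, Finset.univ_eq_empty,
      Finset.sum_empty, mul_zero, add_zero]
    rw [Real.sqrt_sq_eq_abs]
    exact le_abs_self _
  | succ d ih =>
    intro f D C hf hD hC hder hr
    have hpc := prof_cont
    have hfb : ∀ x, |f x| ≤ 1 := fun x => abs_le.mpr ⟨by linarith [(hr x).1], (hr x).2⟩
    set μ : Measure (Fin d → ℝ) := Measure.pi fun _ => ν with hμ
    have hcons : ∀ t : ℝ, Continuous fun y : Fin d → ℝ => (Fin.cons t y : Fin (d + 1) → ℝ) := by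
      intro t; fun_prop
    have hcons' : ∀ y : Fin d → ℝ, Continuous fun t : ℝ => (Fin.cons t y : Fin (d + 1) → ℝ) := by
      intro t; fun_prop
    have hRc : Continuous fun x => √(prof (f x) ^ 2 + s ^ 2 * ∑ i, D i x ^ 2) := by fun_prop
    have hRb : ∀ x, |√(prof (f x) ^ 2 + s ^ 2 * ∑ i, D i x ^ 2)|
        ≤ √(1 + s ^ 2 * ((d + 1 : ℕ) * C ^ 2)) := fun x =>
      sqrt_bound _ _ _ _ _ (prof_abs_le _ (hr x)) (fun i => hC i x)
    rw [fubini_cons ν d f hf 1 hfb, fubini_cons ν d _ hRc _ hRb]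
    set g : ℝ → ℝ := fun t => ∫ y, f (Fin.cons t y) ∂μ with hg
    set g' : ℝ → ℝ := fun t => ∫ y, D 0 (Fin.cons t y) ∂μ with hg'
    have hfi : ∀ t, Integrable (fun y => f (Fin.cons t y)) μ := fun t =>
      integrable_of_bdd μ _ (hf.comp (hcons t)) 1 (fun y => hfb _)
    have hDi : ∀ t, Integrable (fun y => D 0 (Fin.cons t y)) μ := fun t =>
      integrable_of_bdd μ _ ((hD 0).comp (hcons t)) C (fun y => hC _ _)
    have hgd : ∀ t, HasDerivAt g (g' t) t := by
      intro t
      refine (hasDerivAt_integral_of_dominated_loc_of_deriv_le (μ := μ) (s := univ)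
        (F := fun t y => f (Fin.cons t y)) (F' := fun t y => D 0 (Fin.cons t y))
        (bound := fun _ => C) Filter.univ_mem ?_ (hfi t) (hDi t).aestronglyMeasurable ?_
        (integrable_const C) ?_).2
      · exact Filter.Eventually.of_forall fun t => (hfi t).aestronglyMeasurable
      · exact Filter.Eventually.of_forall fun y t _ => hC _ _
      · refine Filter.Eventually.of_forall fun y t _ => ?_
        have := hder 0 (Fin.cons t y)
        simpa only [Fin.update_cons_zero, Fin.cons_zero] using this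
    have hg'c : Continuous g' := by
      apply continuous_of_dominated (bound := fun _ => C)
        (fun t => (hDi t).aestronglyMeasurable)
        (fun t => Filter.Eventually.of_forall fun y => hC _ _) (integrable_const C)
      exact Filter.Eventually.of_forall fun y => (hD 0).comp (hcons' y)
    have hgr : ∀ t, g t ∈ Icc (0 : ℝ) 1 := by
      intro t
      constructor
      · exact integral_nonneg fun y => (hr _).1
      · have := integral_mono (hfi t) (integrable_const (1 : ℝ)) (fun y => (hr _).2)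
        simpa using this
    refine le_trans (h1 g g' hgd hg'c hgr) ?_
    have hgc : Continuous g := continuous_iff_continuousAt.mpr fun x => (hgd x).continuousAt
    have hg'b : ∀ t, |g' t| ≤ C := by
      intro t
      have := norm_integral_le_of_norm_le_const (μ := μ) (f := fun y => D 0 (Fin.cons t y))
        (C := C) (Filter.Eventually.of_forall fun y => hC _ _)
      simpa using this
    apply integral_mono
    · apply integrable_of_bdd ν _ (by fun_prop) (√(1 + s ^ 2 * ((1 : ℕ) * C ^ 2)))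
      intro t
      have := sqrt_bound (prof (g t)) s C 1 (fun _ => g' t) (prof_abs_le _ (hgr t))
        (fun _ => hg'b t)
      simpa using this
    · apply integrable_of_bdd ν _ _ (√(1 + s ^ 2 * ((d + 1 : ℕ) * C ^ 2)))
      · intro t
        have := norm_integral_le_of_norm_le_const (μ := μ)
          (f := fun y => √(prof (f (Fin.cons t y)) ^ 2 + s ^ 2 * ∑ i, D i (Fin.cons t y) ^ 2))
          (C := √(1 + s ^ 2 * ((d + 1 : ℕ) * C ^ 2)))
          (Filter.Eventually.of_forall fun y => hRb _)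
        simpa using this
      · apply continuous_of_dominated (bound := fun _ => √(1 + s ^ 2 * ((d + 1 : ℕ) * C ^ 2)))
          (fun t => (hRc.comp (hcons t)).aestronglyMeasurable)
          (fun t => Filter.Eventually.of_forall fun y => hRb _) (integrable_const _)
        exact Filter.Eventually.of_forall fun y => hRc.comp (hcons' y)
    · intro t
      have hih := ih (fun y => f (Fin.cons t y)) (fun j y => D j.succ (Fin.cons t y)) C
        (hf.comp (hcons t)) (fun j => (hD _).comp (hcons t)) (fun j y => hC _ _)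
        (fun j y => by
          have := hder j.succ (Fin.cons t y)
          simpa only [← Fin.cons_update, Fin.cons_succ] using this)
        (fun y => hr _)
      set u : (Fin d → ℝ) → ℝ := fun y =>
        √(prof (f (Fin.cons t y)) ^ 2 + s ^ 2 * ∑ j : Fin d, D j.succ (Fin.cons t y) ^ 2) with hu
      have huc : Continuous u := by
        have h1 := hf.comp (hcons t)
        have h2 := fun j : Fin d => (hD j.succ).comp (hcons t)
        simp only [Function.comp_def] at h1 h2
        rw [hu]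
        fun_prop
      have hui : Integrable u μ := integrable_of_bdd μ _ huc _ fun y =>
        sqrt_bound _ _ _ _ _ (prof_abs_le _ (hr _)) (fun j => hC _ _)
      have e : ∀ y : Fin d → ℝ, √(u y ^ 2 + (s * D 0 (Fin.cons t y)) ^ 2)
          = √(prof (f (Fin.cons t y)) ^ 2 + s ^ 2 * ∑ i, D i (Fin.cons t y) ^ 2) := by
        intro y
        rw [hu]
        simp only
        rw [Real.sq_sqrt (by positivity), Fin.sum_univ_succ]
        congr 1
        ring
      have hm := minkowski2 μ u (fun y => s * D 0 (Fin.cons t y)) hui ((hDi t).const_mul s) (by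
        simp only [e]
        exact integrable_of_bdd μ _ (hRc.comp (hcons t)) _ (fun y => hRb _))
      simp only [e] at hm
      refine le_trans ?_ hm
      apply Real.sqrt_le_sqrt
      rw [integral_const_mul, mul_pow]
      have h0 := prof_nonneg _ (hgr t).1 (hgr t).2
      have := pow_le_pow_left₀ h0 hih 2
      exact add_le_add this le_rfl

end Pool.Agent.MP_08f2bd_gt

end

-- part MP_08f2bd_gt.Mollify
section

/-!
Mollification: the gradient of the mollified indicator is controlled by the distributional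
perimeter.
-/

set_option autoImplicit false
open MeasureTheory Set Filter Topology
open scoped Convolution

namespace Pool.Agent.MP_08f2bd_gt

/-- The open unit cube. -/
def cube (d : ℕ) : Set (Fin d → ℝ) := {x | ∀ i, 0 < x i ∧ x i < 1}

/-- The closed cube `[δ, 1 - δ]^d`. -/
def box (d : ℕ) (δ : ℝ) : Set (Fin d → ℝ) := Set.pi univ fun _ => Icc δ (1 - δ)

theorem box_compact (d : ℕ) (δ : ℝ) : IsCompact (box d δ) :=
  isCompact_univ_pi fun _ => isCompact_Icc

theorem box_meas (d : ℕ) (δ : ℝ) : MeasurableSet (box d δ) := (box_compact d δ).measurableSet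

theorem box_subset (d : ℕ) (δ : ℝ) (h : 0 < δ) : box d δ ⊆ cube d := by
  intro x hx i
  have := hx i (mem_univ i)
  exact ⟨by linarith [this.1], by linarith [this.2]⟩

theorem cube_eq (d : ℕ) : cube d = Set.pi univ fun _ => Ioo (0 : ℝ) 1 := by
  ext x; simp [cube]

theorem cube_vol (d : ℕ) : volume (cube d) = 1 := by
  rw [cube_eq, Real.volume_pi_Ioo]; simp

theorem cube_meas (d : ℕ) : MeasurableSet (cube d) := by
  rw [cube_eq]; exact MeasurableSet.univ_pi fun _ => measurableSet_Ioo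

/-- Every admissible test field has divergence integral over `E` at most `r`. -/
def PerLe {d : ℕ} (E : Set (Fin d → ℝ)) (r : ℝ) : Prop :=
  ∀ φ : (Fin d → ℝ) → (Fin d → ℝ), ContDiff ℝ 1 φ → HasCompactSupport φ →
    tsupport φ ⊆ cube d → (∀ x, ∑ i, (φ x i) ^ 2 ≤ 1) →
    ∫ x in E, (∑ i, fderiv ℝ (fun y => φ y i) x (Pi.single i (1 : ℝ) : Fin d → ℝ)) ≤ r

/-- Smoothing by the kernel `ρ`. -/
noncomputable def sm {d : ℕ} (ρ g : (Fin d → ℝ) → ℝ) (x : Fin d → ℝ) : ℝ :=
  ∫ y, g y * ρ (x - y)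

theorem sm_eq {d : ℕ} (ρ g : (Fin d → ℝ) → ℝ) :
    sm ρ g = g ⋆[ContinuousLinearMap.mul ℝ ℝ, volume] ρ := by
  funext x
  simp [sm, convolution_def]

theorem sm_contDiff {d : ℕ} (ρ g : (Fin d → ℝ) → ℝ) (hc : HasCompactSupport ρ)
    (hρ : ContDiff ℝ 1 ρ) (hg : Integrable g) : ContDiff ℝ 1 (sm ρ g) := by
  rw [sm_eq]
  exact hc.contDiff_convolution_right _ (n := 1) hg.locallyIntegrable hρ

theorem sm_fderiv {d : ℕ} (ρ g : (Fin d → ℝ) → ℝ) (hc : HasCompactSupport ρ)
    (hρ : ContDiff ℝ 1 ρ) (hg : Integrable g) (x v : Fin d → ℝ) :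
    fderiv ℝ (sm ρ g) x v = ∫ y, g y * fderiv ℝ ρ (x - y) v := by
  rw [sm_eq, (hc.hasFDerivAt_convolution_right _ hg.locallyIntegrable hρ x).fderiv,
    convolution_precompR_apply _ hg.locallyIntegrable (hc.fderiv ℝ)
      (hρ.continuous_fderiv one_ne_zero)]
  simp [convolution_def]

theorem fderiv_odd {d : ℕ} (ρ : (Fin d → ℝ) → ℝ) (hρ : ContDiff ℝ 1 ρ) (he : ∀ x, ρ (-x) = ρ x)
    (z v : Fin d → ℝ) : fderiv ℝ ρ (-z) v = -fderiv ℝ ρ z v := by
  have h1 : HasFDerivAt ρ (fderiv ℝ ρ (-z)) (-z) :=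
    (hρ.differentiable one_ne_zero _).hasFDerivAt
  have h2 : HasFDerivAt (fun x : Fin d → ℝ => -x) (-ContinuousLinearMap.id ℝ _) z :=
    (hasFDerivAt_id z).neg
  have h3 := h1.comp z h2
  have e : (ρ ∘ fun x => -x) = ρ := by funext x; exact he x
  rw [e] at h3
  rw [h3.fderiv]
  simp

theorem sm_mem {d : ℕ} (ρ g : (Fin d → ℝ) → ℝ) (hρi : Integrable ρ) (h0 : ∀ x, 0 ≤ ρ x)
    (h1 : ∫ x, ρ x = 1) (hg : ∀ x, g x ∈ Icc (0 : ℝ) 1) (x : Fin d → ℝ) :
    sm ρ g x ∈ Icc (0 : ℝ) 1 := by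
  constructor
  · exact integral_nonneg fun y => mul_nonneg (hg y).1 (h0 _)
  · have e : ∫ y, ρ (x - y) = 1 := by rw [integral_sub_left_eq_self, h1]
    rw [← e]
    apply integral_mono_of_nonneg
    · exact Eventually.of_forall fun y => mul_nonneg (hg y).1 (h0 _)
    · exact hρi.comp_sub_left x
    · exact Eventually.of_forall fun y => mul_le_of_le_one_left (h0 _) (hg y).2

theorem sm_sq_le {d : ℕ} (ρ : (Fin d → ℝ) → ℝ) (ψ : Fin d → (Fin d → ℝ) → ℝ)
    (hρi : Integrable ρ) (h0 : ∀ x, 0 ≤ ρ x) (h1 : ∫ x, ρ x = 1)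
    (hi : ∀ i y, Integrable fun x => ψ i x * ρ (y - x))
    (hψ : ∀ x, ∑ i, ψ i x ^ 2 ≤ 1) (y : Fin d → ℝ) : ∑ i, (sm ρ (ψ i) y) ^ 2 ≤ 1 := by
  obtain ⟨a, ha⟩ : ∃ a : Fin d → ℝ, a = fun i => sm ρ (ψ i) y := ⟨_, rfl⟩
  have ha' : ∀ i, sm ρ (ψ i) y = a i := fun i => by rw [ha]
  simp only [ha']
  have e1 : ∑ i, a i ^ 2 = ∫ x, ∑ i, a i * (ψ i x * ρ (y - x)) := by
    rw [integral_finsetSum _ fun i _ => (hi i y).const_mul _]
    apply Finset.sum_congr rfl
    intro i _
    rw [integral_const_mul, sq]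
    congr 1
    exact (ha' i).symm
  have e : ∫ x, ρ (y - x) = 1 := by rw [integral_sub_left_eq_self, h1]
  have h2 : ∫ x, ∑ i, a i * (ψ i x * ρ (y - x)) ≤ ∫ x, (∑ i, a i ^ 2 + 1) / 2 * ρ (y - x) := by
    apply integral_mono (integrable_finsetSum _ fun i _ => (hi i y).const_mul _)
      ((hρi.comp_sub_left y).const_mul _)
    intro x
    have h3 : ∑ i, a i * ψ i x ≤ (∑ i, a i ^ 2 + 1) / 2 := by
      have : ∑ i, a i * ψ i x ≤ ∑ i, (a i ^ 2 + ψ i x ^ 2) / 2 :=
        Finset.sum_le_sum fun i _ => by nlinarith [sq_nonneg (a i - ψ i x)]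
      rw [← Finset.sum_div, Finset.sum_add_distrib] at this
      linarith [hψ x]
    have h4 : ∑ i, a i * (ψ i x * ρ (y - x)) = (∑ i, a i * ψ i x) * ρ (y - x) := by
      rw [Finset.sum_mul]
      apply Finset.sum_congr rfl
      intro i _
      ring
    simp only
    rw [h4]
    exact mul_le_mul_of_nonneg_right h3 (h0 _)
  rw [integral_const_mul, e, ← e1] at h2
  linarith

theorem grad_bound {d : ℕ} (E : Set (Fin d → ℝ)) (hE : MeasurableSet E) (hEc : E ⊆ cube d)
    (r : ℝ) (H : PerLe E r) (δ τ : ℝ) (hτ : τ < δ) (ρ : (Fin d → ℝ) → ℝ)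
    (hc : HasCompactSupport ρ) (hρ : ContDiff ℝ 1 ρ) (he : ∀ x, ρ (-x) = ρ x)
    (h0 : ∀ x, 0 ≤ ρ x) (h1 : ∫ x, ρ x = 1) (hs : ∀ x, ρ x ≠ 0 → ‖x‖ < τ) :
    ∫ x in box d δ, √(∑ i, (fderiv ℝ (sm ρ (E.indicator 1)) x
      (Pi.single i (1 : ℝ) : Fin d → ℝ)) ^ 2) ≤ r := by
  have hEfin : volume E ≠ ⊤ :=
    ne_top_of_le_ne_top (by rw [cube_vol]; simp) (measure_mono hEc)
  have hχ : Integrable (E.indicator (1 : (Fin d → ℝ) → ℝ)) :=
    (integrable_indicator_iff hE).mpr (integrableOn_const hEfin)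
  have hρi : Integrable ρ := hρ.continuous.integrable_of_hasCompactSupport hc
  obtain ⟨Cρ, hCρ⟩ := hρ.continuous.bounded_above_of_compact_support hc
  set K : Fin d → (Fin d → ℝ) → ℝ := fun i z => fderiv ℝ ρ z (Pi.single i (1 : ℝ)) with hK
  have hKc : ∀ i, Continuous (K i) := fun i =>
    (hρ.continuous_fderiv one_ne_zero).clm_apply continuous_const
  have hKb : ∀ i, ∃ C, ∀ z, ‖K i z‖ ≤ C := fun i =>
    (hKc i).bounded_above_of_compact_support (hc.fderiv_apply ℝ _)
  set f := sm ρ (E.indicator 1) with hf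
  have hfC : ContDiff ℝ 1 f := sm_contDiff _ _ hc hρ hχ
  set D : Fin d → (Fin d → ℝ) → ℝ := fun i x => fderiv ℝ f x (Pi.single i (1 : ℝ)) with hD
  have hDc : ∀ i, Continuous (D i) := fun i =>
    (hfC.continuous_fderiv one_ne_zero).clm_apply continuous_const
  have hDeq : ∀ i x, D i x = ∫ y, E.indicator 1 y * K i (x - y) := fun i x =>
    sm_fderiv _ _ hc hρ hχ x _
  set N : (Fin d → ℝ) → ℝ := fun x => √(∑ i, D i x ^ 2) with hN
  have hNc : Continuous N := by rw [hN]; fun_prop
  have hN2 : ∀ x, N x ^ 2 = ∑ i, D i x ^ 2 := fun x => Real.sq_sqrt (by positivity)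
  set ψ : Fin d → (Fin d → ℝ) → ℝ := fun i => (box d δ).indicator fun x => D i x / N x with hψ
  have hψ2 : ∀ x, ∑ i, ψ i x ^ 2 ≤ 1 := by
    intro x
    by_cases hx : x ∈ box d δ
    · simp only [hψ, indicator_of_mem hx, div_pow]
      rw [← Finset.sum_div, ← hN2]
      exact div_self_le_one _
    · simp [hψ, indicator_of_notMem hx]
  have hψb : ∀ i x, ‖ψ i x‖ ≤ 1 := by
    intro i x
    have h := Finset.single_le_sum (f := fun i => ψ i x ^ 2) (fun i _ => sq_nonneg _)
      (Finset.mem_univ i)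
    rw [Real.norm_eq_abs]
    exact abs_le_one_iff_mul_self_le_one.mpr (by nlinarith [hψ2 x])
  have hψm : ∀ i, Measurable (ψ i) := fun i =>
    ((hDc i).measurable.div hNc.measurable).indicator (box_meas d δ)
  have hψi : ∀ i, Integrable (ψ i) := by
    intro i
    have hb : Integrable ((box d δ).indicator (fun _ => (1 : ℝ))) :=
      (integrable_indicator_iff (box_meas d δ)).mpr
        (integrableOn_const (box_compact d δ).measure_lt_top.ne)
    refine hb.mono' (hψm i).aestronglyMeasurable (Eventually.of_forall fun x => ?_)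
    by_cases hx : x ∈ box d δ
    · rw [indicator_of_mem hx]; exact hψb i x
    · simp [hψ, indicator_of_notMem hx]
  have hsum : ∀ x, ∑ i, ψ i x * D i x = (box d δ).indicator N x := by
    intro x
    by_cases hx : x ∈ box d δ
    · simp only [hψ, indicator_of_mem hx]
      have : ∑ i, D i x / N x * D i x = (∑ i, D i x ^ 2) / N x := by
        rw [Finset.sum_div]
        apply Finset.sum_congr rfl
        intro i _
        ring
      rw [this, ← hN2]
      rcases eq_or_ne (N x) 0 with h | h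
      · simp [h]
      · field_simp
    · simp [hψ, indicator_of_notMem hx]
  have hprod : ∀ i, Integrable (Function.uncurry fun x y => ψ i x * (E.indicator 1 y * K i (x - y)))
      ((volume : Measure (Fin d → ℝ)).prod volume) := by
    intro i
    obtain ⟨C, hC⟩ := hKb i
    have h := ((hψi i).mul_prod hχ).mul_bdd (c := C) (g := fun p => K i (p.1 - p.2))
      ((hKc i).comp (by fun_prop)).aestronglyMeasurable (Eventually.of_forall fun p => hC _)
    refine h.congr (Eventually.of_forall fun p => ?_)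
    simp only [Function.uncurry]
    ring
  set φ : (Fin d → ℝ) → (Fin d → ℝ) := fun y i => -sm ρ (ψ i) y with hφ
  have hφi : ∀ i, ContDiff ℝ 1 (sm ρ (ψ i)) := fun i => sm_contDiff _ _ hc hρ (hψi i)
  have hφd : ∀ i y, fderiv ℝ (fun y => φ y i) y (Pi.single i (1 : ℝ) : Fin d → ℝ)
      = ∫ x, ψ i x * K i (x - y) := by
    intro i y
    have : (fun y => φ y i) = -sm ρ (ψ i) := rfl
    rw [this, fderiv_neg, neg_apply, sm_fderiv _ _ hc hρ (hψi i),
      ← integral_neg]
    congr 1
    funext x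
    rw [← neg_sub x y, fderiv_odd ρ hρ he]
    simp [hK]
  have hφ0 : ∀ y, y ∉ box d (δ - τ) → φ y = 0 := by
    intro y hy
    funext i
    simp only [hφ, sm, Pi.zero_apply, neg_eq_zero]
    apply integral_eq_zero_of_ae
    refine Eventually.of_forall fun x => ?_
    by_cases hx : x ∈ box d δ
    · have : ρ (y - x) = 0 := by
        by_contra hne
        apply hy
        intro j _
        have h2 := lt_of_le_of_lt (norm_le_pi_norm (y - x) j) (hs _ hne)
        rw [Real.norm_eq_abs, abs_lt, Pi.sub_apply] at h2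
        have h3 := hx j (mem_univ j)
        exact ⟨by linarith [h3.1, h2.1], by linarith [h3.2, h2.2]⟩
      simp [this]
    · simp [hψ, indicator_of_notMem hx]
  have hH := H φ (contDiff_pi.mpr fun i => (hφi i).neg)
    (HasCompactSupport.intro (box_compact d _) hφ0)
    ((closure_minimal (fun y hy => by by_contra h; exact hy (hφ0 y h))
      (box_compact d _).isClosed).trans (box_subset d _ (by linarith)))
    (fun y => by
      simp only [hφ, neg_sq]
      refine sm_sq_le ρ ψ hρi h0 h1 (fun i y => ?_) hψ2 y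
      exact (hψi i).mul_bdd (c := Cρ)
        (hρ.continuous.comp (by fun_prop)).aestronglyMeasurable
        (Eventually.of_forall fun x => hCρ _))
  refine le_trans (le_of_eq ?_) hH
  rw [← integral_indicator (box_meas d δ), ← integral_indicator hE]
  have e1 : ∀ i x, ψ i x * D i x = ∫ y, ψ i x * (E.indicator 1 y * K i (x - y)) := by
    intro i x
    rw [integral_const_mul, hDeq]
  have e2 : ∀ i y, E.indicator 1 y * fderiv ℝ (fun y => φ y i) y (Pi.single i (1 : ℝ) : Fin d → ℝ)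
      = ∫ x, ψ i x * (E.indicator 1 y * K i (x - y)) := by
    intro i y
    rw [hφd, ← integral_const_mul]
    congr 1
    funext x
    ring
  have e3 : ∀ y, E.indicator (fun x => ∑ i, fderiv ℝ (fun y => φ y i) x
      (Pi.single i (1 : ℝ) : Fin d → ℝ)) y
      = ∑ i, ∫ x, ψ i x * (E.indicator 1 y * K i (x - y)) := by
    intro y
    simp only [← e2]
    by_cases hy : y ∈ E
    · simp [indicator_of_mem hy]
    · simp [indicator_of_notMem hy]
  have e4 : ∀ x, (box d δ).indicator N x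
      = ∑ i, ∫ y, ψ i x * (E.indicator 1 y * K i (x - y)) := by
    intro x
    simp only [← e1, hsum]
  change ∫ x, (box d δ).indicator N x = _
  simp only [e3, e4]
  have i1 : ∀ i, Integrable fun x => ∫ y, ψ i x * (E.indicator 1 y * K i (x - y)) :=
    fun i => (hprod i).integral_prod_left
  have i2 : ∀ i, Integrable fun y => ∫ x, ψ i x * (E.indicator 1 y * K i (x - y)) :=
    fun i => (hprod i).integral_prod_right
  rw [integral_finsetSum _ fun i _ => i1 i, integral_finsetSum _ fun i _ => i2 i]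
  apply Finset.sum_congr rfl
  intro i _
  exact integral_integral_swap (hprod i)

end Pool.Agent.MP_08f2bd_gt

end

-- part MP_08f2bd_gt.Lower
section

/-!
The isoperimetric inequality `prof |E| ≤ P(E)` in the unit cube, in every dimension.
-/

set_option autoImplicit false
open MeasureTheory Set Filter Topology
open scoped Convolution

namespace Pool.Agent.MP_08f2bd_gt

theorem pi_unif (d : ℕ) (δ : ℝ) (hδ : δ < 1 / 2) :
    (Measure.pi fun _ : Fin d => unif δ (1 - δ))
      = ((ENNReal.ofReal (1 - δ - δ))⁻¹ ^ d) • volume.restrict (box d δ) := by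
  have := unif_prob δ (1 - δ) (by linarith)
  apply Measure.pi_eq
  intro s hs
  rw [Measure.smul_apply, box, volume_pi, Measure.restrict_pi_pi, Measure.pi_pi]
  simp only [unif, Measure.smul_apply, smul_eq_mul]
  rw [Finset.prod_mul_distrib]
  simp

theorem integral_pi_unif (d : ℕ) (δ : ℝ) (hδ : δ < 1 / 2) (g : (Fin d → ℝ) → ℝ) :
    ∫ x, g x ∂(Measure.pi fun _ : Fin d => unif δ (1 - δ))
      = ((1 - δ - δ)⁻¹) ^ d * ∫ x in box d δ, g x := by
  rw [pi_unif d δ hδ, integral_smul_measure, ENNReal.toReal_pow, ENNReal.toReal_inv,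
    ENNReal.toReal_ofReal (by linarith), smul_eq_mul]

theorem sqrt_add_le (p s S : ℝ) (hp : 0 ≤ p) (hs : 0 ≤ s) (hS : 0 ≤ S) :
    √(p ^ 2 + s ^ 2 * S) ≤ p + s * √S := by
  apply Real.sqrt_le_iff.mpr
  have h1 := Real.sqrt_nonneg S
  have h2 := Real.sq_sqrt hS
  refine ⟨by positivity, ?_⟩
  have : (p + s * √S) ^ 2 = p ^ 2 + s ^ 2 * √S ^ 2 + 2 * (p * s * √S) := by ring
  rw [this, h2]
  have : 0 ≤ p * s * √S := by positivity
  linarith

theorem step_smooth {d : ℕ} (E : Set (Fin d → ℝ)) (hE : MeasurableSet E) (hEc : E ⊆ cube d)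
    (r : ℝ) (H : PerLe E r) (δ : ℝ) (hδ : δ < 1 / 2) (b : ContDiffBump (0 : Fin d → ℝ))
    (hb : b.rOut < δ) :
    prof (∫ x, sm (b.normed volume) (E.indicator 1) x
        ∂(Measure.pi fun _ : Fin d => unif δ (1 - δ)))
      ≤ (∫ x, prof (sm (b.normed volume) (E.indicator 1) x)
        ∂(Measure.pi fun _ : Fin d => unif δ (1 - δ)))
        + (1 - δ - δ) * (((1 - δ - δ)⁻¹) ^ d * r) := by
  have := unif_prob δ (1 - δ) (by linarith)
  have hEfin : volume E ≠ ⊤ :=
    ne_top_of_le_ne_top (by rw [cube_vol]; simp) (measure_mono hEc)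
  have hχ : Integrable (E.indicator (1 : (Fin d → ℝ) → ℝ)) :=
    (integrable_indicator_iff hE).mpr (integrableOn_const hEfin)
  set ρ := b.normed volume with hρdef
  have hc : HasCompactSupport ρ := b.hasCompactSupport_normed
  have hρ : ContDiff ℝ 1 ρ := b.contDiff_normed (n := 1)
  have hρi : Integrable ρ := hρ.continuous.integrable_of_hasCompactSupport hc
  have hgb := grad_bound E hE hEc r H δ b.rOut hb ρ hc hρ b.normed_neg b.nonneg_normed
    b.integral_normed (fun x hx => by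
      have : x ∈ Function.support ρ := hx
      rw [hρdef, b.support_normed_eq] at this
      simpa using this)
  set f := sm ρ (E.indicator 1) with hf
  have hfC : ContDiff ℝ 1 f := sm_contDiff _ _ hc hρ hχ
  have hfr : ∀ x, f x ∈ Icc (0 : ℝ) 1 := sm_mem ρ _ hρi b.nonneg_normed b.integral_normed
    (fun x => by by_cases hx : x ∈ E <;> simp [hx])
  set D : Fin d → (Fin d → ℝ) → ℝ := fun i x => fderiv ℝ f x (Pi.single i (1 : ℝ)) with hD
  have hDc : ∀ i, Continuous (D i) := fun i =>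
    (hfC.continuous_fderiv one_ne_zero).clm_apply continuous_const
  obtain ⟨C, hC⟩ := (hρ.continuous_fderiv one_ne_zero).bounded_above_of_compact_support
    (hc.fderiv ℝ)
  have hDb : ∀ i x, |D i x| ≤ C * ∫ y, ‖E.indicator (1 : (Fin d → ℝ) → ℝ) y‖ := by
    intro i x
    have e : D i x = ∫ y, E.indicator 1 y * fderiv ℝ ρ (x - y) (Pi.single i (1 : ℝ)) :=
      sm_fderiv _ _ hc hρ hχ x _
    rw [e, ← Real.norm_eq_abs, ← integral_const_mul]
    apply norm_integral_le_of_norm_le (hχ.norm.const_mul _)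
    refine Eventually.of_forall fun y => ?_
    rw [norm_mul, mul_comm]
    apply mul_le_mul_of_nonneg_right _ (norm_nonneg _)
    refine le_trans (ContinuousLinearMap.le_opNorm _ _) ?_
    rw [Pi.norm_single, norm_one, mul_one]
    exact hC _
  have hder : ∀ i x, HasDerivAt (fun t => f (Function.update x i t)) (D i x) (x i) := by
    intro i x
    have h1 : HasFDerivAt f (fderiv ℝ f x) (Function.update x i (x i)) := by
      rw [Function.update_eq_self]
      exact (hfC.differentiable one_ne_zero x).hasFDerivAt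
    exact h1.comp_hasDerivAt (x i) (hasDerivAt_update x i (x i))
  have hB := bob_pi (unif δ (1 - δ)) (1 - δ - δ) (bob1_unif δ (1 - δ) (by linarith)) d f D _
    hfC.continuous hDc hDb hder hfr
  refine hB.trans ?_
  have hpc := prof_cont
  have hfc := hfC.continuous
  have i1 : Integrable (fun x => prof (f x)) (Measure.pi fun _ : Fin d => unif δ (1 - δ)) :=
    integrable_of_bdd _ _ (by fun_prop) 1 fun x => prof_abs_le _ (hfr x)
  have i2 : Integrable (fun x => √(∑ i, D i x ^ 2))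
      (Measure.pi fun _ : Fin d => unif δ (1 - δ)) := by
    apply integrable_of_bdd _ _ (by fun_prop)
    intro x
    have := sqrt_bound 0 1 _ d (fun i => D i x) (by simp) (fun i => hDb i x)
    simpa using this
  have h2 : ∫ x, √(prof (f x) ^ 2 + (1 - δ - δ) ^ 2 * ∑ i, D i x ^ 2)
      ∂(Measure.pi fun _ : Fin d => unif δ (1 - δ))
      ≤ ∫ x, (prof (f x) + (1 - δ - δ) * √(∑ i, D i x ^ 2))
      ∂(Measure.pi fun _ : Fin d => unif δ (1 - δ)) := by
    apply integral_mono_of_nonneg (Eventually.of_forall fun x => Real.sqrt_nonneg _)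
      (i1.add (i2.const_mul _))
    refine Eventually.of_forall fun x => ?_
    exact sqrt_add_le _ _ _ (prof_nonneg _ (hfr x).1 (hfr x).2) (by linarith) (by positivity)
  refine h2.trans ?_
  rw [integral_add i1 (i2.const_mul _), integral_const_mul,
    integral_pi_unif d δ hδ (fun x => √(∑ i, D i x ^ 2))]
  have hs : 0 < 1 - δ - δ := by linarith
  have := mul_le_mul_of_nonneg_left (mul_le_mul_of_nonneg_left hgb
    (show 0 ≤ ((1 - δ - δ)⁻¹) ^ d by positivity)) hs.le
  linarith

theorem step_box {d : ℕ} (E : Set (Fin d → ℝ)) (hE : MeasurableSet E) (hEc : E ⊆ cube d)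
    (r : ℝ) (H : PerLe E r) (δ : ℝ) (hδ0 : 0 < δ) (hδ : δ < 1 / 2) :
    prof (((1 - δ - δ)⁻¹) ^ d * volume.real (E ∩ box d δ))
      ≤ (1 - δ - δ) * (((1 - δ - δ)⁻¹) ^ d * r) := by
  have := unif_prob δ (1 - δ) (by linarith)
  have hEfin : volume E ≠ ⊤ :=
    ne_top_of_le_ne_top (by rw [cube_vol]; simp) (measure_mono hEc)
  have hχ : Integrable (E.indicator (1 : (Fin d → ℝ) → ℝ)) :=
    (integrable_indicator_iff hE).mpr (integrableOn_const hEfin)
  set μ : Measure (Fin d → ℝ) := Measure.pi fun _ : Fin d => unif δ (1 - δ) with hμ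
  let b : ℕ → ContDiffBump (0 : Fin d → ℝ) := fun n =>
    ⟨δ / (2 * ((n : ℝ) + 2)), δ / ((n : ℝ) + 2), by positivity, by
      apply div_lt_div_of_pos_left hδ0 (by positivity)
      have : (0 : ℝ) ≤ n := Nat.cast_nonneg n
      linarith⟩
  have hb : ∀ n, (b n).rOut < δ := by
    intro n
    change δ / ((n : ℝ) + 2) < δ
    rw [div_lt_iff₀ (by positivity)]
    have : (0 : ℝ) ≤ n := Nat.cast_nonneg n
    nlinarith
  have hb0 : Tendsto (fun n => (b n).rOut) atTop (𝓝 0) := by
    change Tendsto (fun n : ℕ => δ / ((n : ℝ) + 2)) atTop (𝓝 0)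
    apply Tendsto.div_atTop tendsto_const_nhds
    exact tendsto_atTop_add_const_right _ _ tendsto_natCast_atTop_atTop
  have hbK : ∀ᶠ n in atTop, (b n).rOut ≤ 2 * (b n).rIn := by
    refine Eventually.of_forall fun n => le_of_eq ?_
    change δ / ((n : ℝ) + 2) = 2 * (δ / (2 * ((n : ℝ) + 2)))
    field_simp
  have hae := ContDiffBump.ae_convolution_tendsto_right_of_locallyIntegrable hb0 hbK
    hχ.locallyIntegrable
  set f : ℕ → (Fin d → ℝ) → ℝ := fun n => sm ((b n).normed volume) (E.indicator 1) with hf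
  have hae2 : ∀ᵐ x ∂(volume : Measure (Fin d → ℝ)),
      Tendsto (fun n => f n x) atTop (𝓝 (E.indicator 1 x)) := by
    filter_upwards [hae] with x hx
    refine hx.congr fun n => ?_
    rw [convolution_eq_swap]
    simp only [hf, sm, ContinuousLinearMap.lsmul_apply, smul_eq_mul, mul_comm]
  have hac : μ ≪ volume := by
    rw [hμ, pi_unif d δ hδ]
    exact Measure.smul_absolutelyContinuous.trans Measure.restrict_le_self.absolutelyContinuous
  have hae3 := hac.ae_le hae2
  have hfc : ∀ n, Continuous (f n) := fun n =>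
    (sm_contDiff _ _ (b n).hasCompactSupport_normed ((b n).contDiff_normed (n := 1)) hχ).continuous
  have hfr : ∀ n x, f n x ∈ Icc (0 : ℝ) 1 := fun n =>
    sm_mem _ _ (b n).integrable_normed (b n).nonneg_normed (b n).integral_normed
      (fun x => by by_cases hx : x ∈ E <;> simp [hx])
  have t1 : Tendsto (fun n => ∫ x, f n x ∂μ) atTop (𝓝 (∫ x, E.indicator 1 x ∂μ)) :=
    tendsto_integral_of_dominated_convergence (fun _ => 1)
      (fun n => (hfc n).aestronglyMeasurable) (integrable_const _)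
      (fun n => Eventually.of_forall fun x =>
        abs_le.mpr ⟨by linarith [(hfr n x).1], (hfr n x).2⟩) hae3
  have t2 : Tendsto (fun n => ∫ x, prof (f n x) ∂μ) atTop (𝓝 (∫ _x, (0 : ℝ) ∂μ)) := by
    refine tendsto_integral_of_dominated_convergence (fun _ => 1)
      (fun n => (prof_cont.comp (hfc n)).aestronglyMeasurable) (integrable_const _)
      (fun n => Eventually.of_forall fun x => prof_abs_le _ (hfr n x)) ?_
    filter_upwards [hae3] with x hx
    have := (prof_cont.tendsto _).comp hx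
    have e : prof (E.indicator 1 x) = 0 := by
      by_cases hx : x ∈ E
      · simp [hx, prof_one]
      · simp [hx, prof_zero]
    rwa [e] at this
  have e1 : ∫ x, E.indicator 1 x ∂μ = ((1 - δ - δ)⁻¹) ^ d * volume.real (E ∩ box d δ) := by
    rw [hμ, integral_pi_unif d δ hδ, integral_indicator_one hE, measureReal_restrict_apply hE]
  rw [e1] at t1
  have t3 := (prof_cont.tendsto _).comp t1
  have t4 := t2.add_const ((1 - δ - δ) * (((1 - δ - δ)⁻¹) ^ d * r))
  rw [integral_zero, zero_add] at t4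
  exact le_of_tendsto_of_tendsto' t3 t4 fun n => step_smooth E hE hEc r H δ hδ (b n) (hb n)

theorem iso_lower {d : ℕ} (E : Set (Fin d → ℝ)) (hE : MeasurableSet E) (hEc : E ⊆ cube d)
    (r : ℝ) (H : PerLe E r) : prof (volume.real E) ≤ r := by
  have hEfin : volume E ≠ ⊤ :=
    ne_top_of_le_ne_top (by rw [cube_vol]; simp) (measure_mono hEc)
  have hcfin : volume (cube d) ≠ ⊤ := by rw [cube_vol]; simp
  have hev : ∀ᶠ δ in 𝓝[>] (0 : ℝ), 0 < δ ∧ δ < 1 / 2 := by
    filter_upwards [Ioo_mem_nhdsGT (show (0 : ℝ) < 1 / 2 by norm_num)] with δ h using h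
  have hs : Tendsto (fun δ : ℝ => 1 - δ - δ) (𝓝[>] 0) (𝓝 1) := by
    apply tendsto_nhdsWithin_of_tendsto_nhds
    have : Continuous fun δ : ℝ => 1 - δ - δ := by fun_prop
    simpa using this.tendsto 0
  have hs2 : Tendsto (fun δ : ℝ => ((1 - δ - δ)⁻¹) ^ d) (𝓝[>] 0) (𝓝 1) := by
    simpa using (hs.inv₀ one_ne_zero).pow d
  have hs3 : Tendsto (fun δ : ℝ => volume.real (E ∩ box d δ)) (𝓝[>] 0) (𝓝 (volume.real E)) := by
    have hl : Tendsto (fun δ : ℝ => volume.real E - (1 - (1 - δ - δ) ^ d)) (𝓝[>] 0)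
        (𝓝 (volume.real E)) := by
      have := ((hs.pow d).const_sub 1).const_sub (volume.real E)
      simpa using this
    refine tendsto_of_tendsto_of_tendsto_of_le_of_le' hl tendsto_const_nhds ?_ ?_
    · filter_upwards [hev] with δ hδ
      have h1 := measureReal_inter_add_sdiff (μ := volume) (s := E) (box_meas d δ) hEfin
      have h2 : volume.real (E \ box d δ) ≤ volume.real (cube d \ box d δ) :=
        measureReal_mono (sdiff_subset_sdiff_left hEc)
          (ne_top_of_le_ne_top hcfin (measure_mono sdiff_subset))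
      have h3 := measureReal_sdiff (μ := volume) (box_subset d δ hδ.1) (box_meas d δ) hcfin
      have h4 : volume.real (cube d) = 1 := by simp [Measure.real, cube_vol]
      have h5 : volume.real (box d δ) = (1 - δ - δ) ^ d := by
        rw [Measure.real, box, volume_pi, Measure.pi_pi]
        simp only [Real.volume_Icc, Finset.prod_const, Finset.card_univ, Fintype.card_fin]
        rw [ENNReal.toReal_pow, ENNReal.toReal_ofReal (by linarith [hδ.2])]
      linarith
    · exact Eventually.of_forall fun δ => measureReal_mono inter_subset_left hEfin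
  have t1 := (prof_cont.tendsto _).comp (hs2.mul hs3)
  have t2 := hs.mul (hs2.mul_const r)
  simp only [one_mul] at t1 t2
  refine le_of_tendsto_of_tendsto t1 t2 ?_
  filter_upwards [hev] with δ hδ
  exact step_box E hE hEc r H δ hδ.1 hδ.2

end Pool.Agent.MP_08f2bd_gt

end

-- part MP_08f2bd_gt.Slab
section

/-!
The slab has relative perimeter at most one.
-/

set_option autoImplicit false
open MeasureTheory Set Filter Topology

namespace Pool.Agent.MP_08f2bd_gt

theorem slab (n : ℕ) (t : ℝ) (h0 : 0 ≤ t) (h1 : t ≤ 1) :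
    ∃ E : Set (Fin (n + 1) → ℝ), MeasurableSet E ∧ E ⊆ cube (n + 1) ∧
      volume E = ENNReal.ofReal t ∧ PerLe E 1 := by
  set b : Fin (n + 1) → ℝ := Fin.cons t fun _ => 1 with hb
  have hb1 : ∀ i, b i ≤ 1 := by
    intro i
    refine Fin.cases ?_ (fun j => ?_) i
    · simpa [hb] using h1
    · simp [hb]
  have hb0 : (0 : Fin (n + 1) → ℝ) ≤ b := by
    intro i
    refine Fin.cases ?_ (fun j => ?_) i
    · simpa [hb] using h0
    · simp [hb]
  refine ⟨Set.pi univ fun i => Ioo 0 (b i), MeasurableSet.univ_pi fun _ => measurableSet_Ioo,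
    fun x hx i => ⟨(hx i (mem_univ i)).1, lt_of_lt_of_le (hx i (mem_univ i)).2 (hb1 i)⟩, ?_, ?_⟩
  · rw [Real.volume_pi_Ioo, Fin.prod_univ_succ]
    simp [hb]
  · intro φ hφ hc hs hle
    have hz : ∀ x, x ∉ cube (n + 1) → φ x = 0 := fun x hx =>
      image_eq_zero_of_notMem_tsupport fun h => hx (hs h)
    have hφi : ∀ i, ContDiff ℝ 1 fun y => φ y i := contDiff_pi.mp hφ
    have hae : (Set.pi univ fun i => Ioo (0 : ℝ) (b i)) =ᵐ[volume] Icc 0 b :=
      Measure.univ_pi_Ioo_ae_eq_Icc (μ := fun _ => volume) (f := 0) (g := b)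
    rw [setIntegral_congr_set hae]
    have hdiv := integral_divergence_of_hasFDerivAt_off_countable' 0 b hb0 (fun i y => φ y i)
      (fun i x => fderiv ℝ (fun y => φ y i) x) ∅ countable_empty
      (fun i => (hφi i).continuous.continuousOn)
      (fun x _ i => ((hφi i).differentiable one_ne_zero x).hasFDerivAt)
      (by
        apply ContinuousOn.integrableOn_compact isCompact_Icc
        apply Continuous.continuousOn
        exact continuous_finsetSum _ fun i _ =>
          ((hφi i).continuous_fderiv one_ne_zero).clm_apply continuous_const)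
    rw [hdiv]
    have hback : ∀ (i : Fin (n + 1)) (x : Fin n → ℝ),
        φ (Fin.insertNth i ((0 : Fin (n + 1) → ℝ) i) x) i = 0 := by
      intro i x
      rw [hz _ (fun h => by simpa using (h i).1)]
      rfl
    have hfront : ∀ (j : Fin n) (x : Fin n → ℝ),
        φ (Fin.insertNth j.succ (b j.succ) x) j.succ = 0 := by
      intro j x
      rw [hz _ (fun h => by simpa [hb] using (h j.succ).2)]
      rfl
    simp only [hback, Fin.sum_univ_succ, hfront, integral_zero, sub_zero, Finset.sum_const_zero,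
      add_zero]
    have hv : volume (Icc ((0 : Fin (n + 1) → ℝ) ∘ (0 : Fin (n + 1)).succAbove)
        (b ∘ (0 : Fin (n + 1)).succAbove)) = 1 := by
      rw [Real.volume_Icc_pi]
      simp [hb]
    have hn := norm_setIntegral_le_of_norm_le_const (μ := volume) (C := 1)
      (f := fun x : Fin n → ℝ => φ (Fin.insertNth 0 (b 0) x) 0)
      (s := Icc ((0 : Fin (n + 1) → ℝ) ∘ (0 : Fin (n + 1)).succAbove)
        (b ∘ (0 : Fin (n + 1)).succAbove)) (by rw [hv]; simp) (fun x _ => by
        have h := Finset.single_le_sum (f := fun i => φ (Fin.insertNth 0 (b 0) x) i ^ 2)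
          (fun i _ => sq_nonneg _) (Finset.mem_univ 0)
        rw [Real.norm_eq_abs]
        exact abs_le_one_iff_mul_self_le_one.mpr (by nlinarith [hle (Fin.insertNth 0 (b 0) x)]))
    rw [Measure.real, hv] at hn
    simp only [ENNReal.toReal_one, mul_one, Real.norm_eq_abs] at hn
    exact le_trans (le_abs_self _) hn

end Pool.Agent.MP_08f2bd_gt

end
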